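import Mathlib

/-!
General facts on ranks of matrices over a field used for the log-rank results.
-/

set_option linter.unusedSectionVars false

namespace Pool.Agent.Helper26

open Matrix Module

section general

variable {K : Type*} [Field K] {m n p q : Type*} [Fintype m] [Fintype n] [Fintype p] [Fintype q]

theorem rank_add_le (A B : Matrix m n K) : (A + B).rank ≤ A.rank + B.rank := by
  rw [Matrix.rank, Matrix.rank, Matrix.rank]
  refine le_trans (Submodule.finrank_mono ?_) (Submodule.finrank_add_le_finrank_add_finrank _ _)
  rintro v ⟨w, rfl⟩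
  rw [Matrix.mulVecLin_add, LinearMap.add_apply]
  exact Submodule.add_mem_sup ⟨w, rfl⟩ ⟨w, rfl⟩

theorem rank_neg (A : Matrix m n K) : (-A).rank = A.rank := by
  have h : ∀ B : Matrix m n K, (-B).rank ≤ B.rank := by
    intro B
    rw [Matrix.rank, Matrix.rank]
    refine Submodule.finrank_mono ?_
    rintro v ⟨w, rfl⟩
    refine ⟨-w, ?_⟩
    simp [Matrix.mulVec_neg]
  refine le_antisymm (h A) ?_
  simpa using h (-A)

theorem rank_sub_le (A B : Matrix m n K) : (A - B).rank ≤ A.rank + B.rank := by
  rw [sub_eq_add_neg, ← rank_neg B]
  exact rank_add_le _ _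

theorem rank_diag_blocks (A : Matrix m n K) (D : Matrix p q K) :
    A.rank + D.rank ≤ (fromBlocks A 0 0 D).rank := by
  have h1 := LinearMap.finrank_range_add_finrank_ker A.mulVecLin
  have h2 := LinearMap.finrank_range_add_finrank_ker D.mulVecLin
  have h3 := LinearMap.finrank_range_add_finrank_ker (fromBlocks A 0 0 D).mulVecLin
  rw [Matrix.rank, Matrix.rank, Matrix.rank]
  simp only [Module.finrank_fintype_fun_eq_card] at h1 h2 h3
  rw [Fintype.card_sum] at h3
  have h4 : finrank K (LinearMap.ker (fromBlocks A 0 0 D).mulVecLin) ≤
      finrank K (LinearMap.ker A.mulVecLin) + finrank K (LinearMap.ker D.mulVecLin) := by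
    rw [← Module.finrank_prod]
    let φ : (n ⊕ q → K) →ₗ[K] (n → K) × (q → K) :=
      LinearMap.prod (LinearMap.funLeft K K Sum.inl) (LinearMap.funLeft K K Sum.inr)
    have hφ : ∀ v : LinearMap.ker (fromBlocks A 0 0 D).mulVecLin,
        (φ v).1 ∈ LinearMap.ker A.mulVecLin ∧ (φ v).2 ∈ LinearMap.ker D.mulVecLin := by
      rintro ⟨v, hv⟩
      have hv' : (fromBlocks A 0 0 D) *ᵥ v = 0 := hv
      rw [fromBlocks_mulVec] at hv'
      constructor
      · have := congrArg (fun f => f ∘ Sum.inl) hv'
        simp only [Sum.elim_comp_inl] at this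
        simp only [LinearMap.mem_ker, mulVecLin_apply]
        have h5 : (φ v).1 = v ∘ Sum.inl := rfl
        rw [h5]
        simpa using this
      · have := congrArg (fun f => f ∘ Sum.inr) hv'
        simp only [Sum.elim_comp_inr] at this
        simp only [LinearMap.mem_ker, mulVecLin_apply]
        have h5 : (φ v).2 = v ∘ Sum.inr := rfl
        rw [h5]
        simpa using this
    let ψ : LinearMap.ker (fromBlocks A 0 0 D).mulVecLin →ₗ[K]
        LinearMap.ker A.mulVecLin × LinearMap.ker D.mulVecLin :=
      LinearMap.prod
        (LinearMap.codRestrict _ (((LinearMap.fst K _ _).comp φ).comp (Submodule.subtype _))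
          fun v => (hφ v).1)
        (LinearMap.codRestrict _ (((LinearMap.snd K _ _).comp φ).comp (Submodule.subtype _))
          fun v => (hφ v).2)
    apply LinearMap.finrank_le_finrank_of_injective (f := ψ)
    intro v w hvw
    apply Subtype.ext
    have h5 : (φ v).1 = (φ w).1 := congrArg (fun t => (t.1 : n → K)) hvw
    have h6 : (φ v).2 = (φ w).2 := congrArg (fun t => (t.2 : q → K)) hvw
    funext i
    cases i with
    | inl i => exact congrFun h5 i
    | inr i => exact congrFun h6 i
  omega

/-- If each row of a matrix of rank `r` has at most `c` nonzero entries then, outside a set of at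
most `r * c` columns, the matrix vanishes. -/
theorem exists_zero_columns (A : Matrix m n K) (c : ℕ)
    (h : ∀ i, ({j | A i j ≠ 0} : Set n).ncard ≤ c) :
    ∃ T : Finset n, Fintype.card n ≤ T.card + A.rank * c ∧ ∀ i, ∀ j ∈ T, A i j = 0 := by
  classical
  obtain ⟨b, hb, hspan, hli⟩ := exists_linearIndependent K (Set.range A.row)
  have hbfin : b.Finite := (Set.finite_range A.row).subset hb
  have : Fintype b := hbfin.fintype
  have hcard : hbfin.toFinset.card = A.rank := by
    rw [rank_eq_finrank_span_row, ← hspan, finrank_span_set_eq_card hli]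
    congr 1
    ext; simp
  let Bad : Finset n := hbfin.toFinset.biUnion fun v => Finset.univ.filter fun j => v j ≠ 0
  refine ⟨Badᶜ, ?_, ?_⟩
  · have h1 : Bad.card ≤ hbfin.toFinset.card * c := by
      apply Finset.card_biUnion_le_card_mul
      intro v hv
      obtain ⟨i, rfl⟩ := hb (hbfin.mem_toFinset.1 hv)
      have := h i
      rw [Set.ncard_eq_toFinset_card'] at this
      convert this using 2
      ext j
      simp only [Finset.mem_filter, Finset.mem_univ, true_and, Set.mem_toFinset]
      exact Iff.rfl
    rw [hcard] at h1
    have := Finset.card_add_card_compl Bad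
    omega
  · intro i j hj
    have h1 : ∀ v ∈ Submodule.span K b, v j = 0 := by
      intro v hv
      induction hv using Submodule.span_induction with
      | mem v hv =>
        by_contra hne
        apply Finset.mem_compl.1 hj
        exact Finset.mem_biUnion.2 ⟨v, hbfin.mem_toFinset.2 hv, by simpa using hne⟩
      | zero => rfl
      | add v w _ _ hv hw => simp [hv, hw]
      | smul a v _ hv => simp [hv]
    have h2 : A.row i ∈ Submodule.span K b := by
      rw [hspan]; exact Submodule.subset_span ⟨i, rfl⟩
    exact h1 _ h2

/-- The number of distinct rows of a matrix with entries in `{0, 1}` is at most `2 ^ rank`. -/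
theorem card_rows_le (A : Matrix m n K) (h : ∀ i j, A i j = 0 ∨ A i j = 1) :
    (Set.range A.row).ncard ≤ 2 ^ A.rank := by
  classical
  obtain ⟨b, hb, hspan, hli⟩ := exists_linearIndependent K (Set.range A.col)
  have hbfin : b.Finite := (Set.finite_range A.col).subset hb
  have : Fintype b := hbfin.fintype
  have hcard : Fintype.card b = A.rank := by
    rw [rank_eq_finrank_span_cols, ← hspan, finrank_span_set_eq_card hli, ← Set.toFinset_card]
  have key : ∀ i i', (∀ v ∈ b, v i = v i') → A.row i = A.row i' := by
    intro i i' hii
    have h1 : ∀ v ∈ Submodule.span K b, v i = v i' := by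
      intro v hv
      induction hv using Submodule.span_induction with
      | mem v hv => exact hii v hv
      | zero => rfl
      | add v w _ _ hv hw => simp [hv, hw]
      | smul a v _ hv => simp [hv]
    funext j
    have h2 : A.col j ∈ Submodule.span K b := by
      rw [hspan]; exact Submodule.subset_span ⟨j, rfl⟩
    exact h1 _ h2
  let g : Set.range A.row → (b → Bool) := fun x => fun v => decide ((v : m → K) x.2.choose = 1)
  have hg : Function.Injective g := by
    rintro ⟨x, hx⟩ ⟨y, hy⟩ hxy
    apply Subtype.ext
    change x = y
    rw [← hx.choose_spec, ← hy.choose_spec]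
    apply key
    intro v hv
    have h3 := congrFun hxy ⟨v, hv⟩
    simp only [g, decide_eq_decide] at h3
    obtain ⟨j, rfl⟩ := hb hv
    have e1 := h hx.choose j
    have e2 := h hy.choose j
    change A hx.choose j = A hy.choose j
    change A hx.choose j = 1 ↔ A hy.choose j = 1 at h3
    rcases e1 with e1 | e1 <;> rcases e2 with e2 | e2 <;> simp_all
  have := Fintype.card_le_of_injective g hg
  rw [Fintype.card_fun, Fintype.card_bool, hcard] at this
  rwa [← Nat.card_eq_fintype_card, Nat.card_coe_set_eq] at this

end general

end Pool.Agent.Helper26
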