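import Pool.Agent.Helper26.RankLib

/-!
Pure pairs, independent sets and colourings of low-rank graphs without a given induced subgraph.
-/

set_option linter.unusedSectionVars false

namespace Pool.Agent.Helper26

open Matrix Finset

variable {V : Type*} [Fintype V] [DecidableEq V] (G : SimpleGraph V) [DecidableRel G.Adj]

/-- The block of the adjacency matrix of `G` with rows in `A` and columns in `B`. -/
def cross (A B : Finset V) : Matrix A B ℝ :=
  (G.adjMatrix ℝ).submatrix Subtype.val Subtype.val

/-- The rank of the adjacency matrix of the subgraph of `G` induced on `X`. -/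
noncomputable def rk (X : Finset V) : ℕ := (cross G X X).rank

theorem cross_apply (A B : Finset V) (a : A) (b : B) :
    cross G A B a b = if G.Adj a b then 1 else 0 := by
  simp [cross, SimpleGraph.adjMatrix_apply]

theorem cross_rank_mono {A B A' B' : Finset V} (hA : A ⊆ A') (hB : B ⊆ B') :
    (cross G A B).rank ≤ (cross G A' B').rank := by
  have : cross G A B = (cross G A' B').submatrix (fun a : A => (⟨a.1, hA a.2⟩ : A'))
      (fun b : B => (⟨b.1, hB b.2⟩ : B')) := by
    ext a b
    rfl
  rw [this]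
  exact rank_submatrix_le _ _ _

theorem cross_rank_le (A B : Finset V) : (cross G A B).rank ≤ (G.adjMatrix ℝ).rank :=
  rank_submatrix_le _ _ _

theorem rk_mono {X Y : Finset V} (h : X ⊆ Y) : rk G X ≤ rk G Y := cross_rank_mono G h h

theorem rk_le (X : Finset V) : rk G X ≤ (G.adjMatrix ℝ).rank := cross_rank_le G X X

theorem rk_singleton (v : V) : rk G {v} = 0 := by
  have : cross G {v} {v} = 0 := by
    ext a b
    have ha : (a : V) = v := Finset.mem_singleton.1 a.2
    have hb : (b : V) = v := Finset.mem_singleton.1 b.2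
    rw [cross_apply, ha, hb]
    simp
  rw [rk, this, rank_zero]

theorem rank_const_le {m n : Type*} [Fintype m] [Fintype n] (c : ℝ) :
    (Matrix.of fun (_ : m) (_ : n) => c).rank ≤ 1 := by
  have : (Matrix.of fun (_ : m) (_ : n) => c) = vecMulVec (fun _ => c) (fun _ => 1) := by
    ext i j
    simp [vecMulVec_apply]
  rw [this]
  exact rank_vecMulVec_le _ _

theorem rk_add_le {A B : Finset V} (c : ℝ)
    (h : ∀ a ∈ A, ∀ b ∈ B, (if G.Adj a b then (1 : ℝ) else 0) = c) :
    rk G A + rk G B ≤ rk G (A ∪ B) + 2 := by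
  have hsymm : ∀ a ∈ A, ∀ b ∈ B, (if G.Adj b a then (1 : ℝ) else 0) = c := by
    intro a ha b hb
    rw [← h a ha b hb]
    simp [SimpleGraph.adj_comm]
  let e : A ⊕ B → (A ∪ B : Finset V) :=
    Sum.elim (fun a => ⟨a, mem_union_left _ a.2⟩) (fun b => ⟨b, mem_union_right _ b.2⟩)
  let J1 : Matrix (A ⊕ B) (A ⊕ B) ℝ :=
    vecMulVec (Sum.elim (fun _ => c) (fun _ => 0)) (Sum.elim (fun _ => 0) (fun _ => 1))
  let J2 : Matrix (A ⊕ B) (A ⊕ B) ℝ :=
    vecMulVec (Sum.elim (fun _ => 0) (fun _ => c)) (Sum.elim (fun _ => 1) (fun _ => 0))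
  have key : fromBlocks (cross G A A) 0 0 (cross G B B) =
      ((cross G (A ∪ B) (A ∪ B)).submatrix e e - J1) - J2 := by
    ext i j
    rcases i with i | i <;> rcases j with j | j
    · simp [J1, J2, e, vecMulVec_apply, cross_apply]
    · simp only [fromBlocks_apply₁₂, Matrix.zero_apply, Matrix.sub_apply, submatrix_apply,
        cross_apply, J1, J2, e, vecMulVec_apply, Sum.elim_inl, Sum.elim_inr]
      rw [h i i.2 j j.2]; ring
    · simp only [fromBlocks_apply₂₁, Matrix.zero_apply, Matrix.sub_apply, submatrix_apply,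
        cross_apply, J1, J2, e, vecMulVec_apply, Sum.elim_inl, Sum.elim_inr]
      rw [hsymm j j.2 i i.2]; ring
    · simp [J1, J2, e, vecMulVec_apply, cross_apply]
  calc rk G A + rk G B ≤ (fromBlocks (cross G A A) 0 0 (cross G B B)).rank :=
        rank_diag_blocks _ _
    _ = (((cross G (A ∪ B) (A ∪ B)).submatrix e e - J1) - J2).rank := by rw [key]
    _ ≤ ((cross G (A ∪ B) (A ∪ B)).submatrix e e - J1).rank + J2.rank := rank_sub_le _ _
    _ ≤ (((cross G (A ∪ B) (A ∪ B)).submatrix e e).rank + J1.rank) + J2.rank :=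
        Nat.add_le_add_right (rank_sub_le _ _) _
    _ ≤ (rk G (A ∪ B) + 1) + 1 := by
        gcongr
        · exact rank_submatrix_le _ _ _
        · exact rank_vecMulVec_le _ _
        · exact rank_vecMulVec_le _ _
    _ = rk G (A ∪ B) + 2 := rfl

/-! ### Purification of a nearly pure pair -/

theorem purify_sparse {A B : Finset V} {q : ℕ} (hq : 2 * (cross G A B).rank ≤ q)
    (h : ∀ a ∈ A, q * #{b ∈ B | G.Adj a b} ≤ #B) :
    ∃ B' ⊆ B, #B ≤ 2 * #B' ∧ ∀ a ∈ A, ∀ b ∈ B', ¬ G.Adj a b := by
  rcases Nat.eq_zero_or_pos q with h0 | hq0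
  · -- rank zero
    have hr : (cross G A B).rank = 0 := by omega
    obtain ⟨T, hT, hT'⟩ := exists_zero_columns (cross G A B) (#B) (by
      intro i
      refine le_trans (Set.ncard_le_card (s := {j | cross G A B i j ≠ 0})) ?_
      simp)
    refine ⟨T.map (Function.Embedding.subtype _), ?_, ?_, ?_⟩
    · intro x hx
      obtain ⟨y, _, rfl⟩ := Finset.mem_map.1 hx
      exact y.2
    · rw [card_map]
      rw [hr] at hT
      simp at hT
      omega
    · intro a ha b hb
      obtain ⟨y, hy, rfl⟩ := Finset.mem_map.1 hb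
      have := hT' ⟨a, ha⟩ y hy
      rw [cross_apply] at this
      intro hadj
      simp at this
      exact this hadj
  · obtain ⟨T, hT, hT'⟩ := exists_zero_columns (cross G A B) (#B / q) (by
      intro i
      have h1 : ({j | cross G A B i j ≠ 0} : Set B).ncard = #{b ∈ B | G.Adj i b} := by
        rw [Set.ncard_eq_toFinset_card', ← Finset.card_map (Function.Embedding.subtype _)]
        congr 1
        ext x
        simp only [Finset.mem_map, Set.mem_toFinset, Function.Embedding.coe_subtype,
          Finset.mem_filter]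
        constructor
        · rintro ⟨y, hy, rfl⟩
          refine ⟨y.2, ?_⟩
          by_contra hne
          apply hy
          rw [cross_apply, if_neg hne]
        · rintro ⟨hx, hadj⟩
          refine ⟨⟨x, hx⟩, ?_, rfl⟩
          change cross G A B i ⟨x, hx⟩ ≠ 0
          rw [cross_apply, if_pos hadj]
          exact one_ne_zero
      rw [h1, Nat.le_div_iff_mul_le hq0, mul_comm]
      exact h i i.2)
    refine ⟨T.map (Function.Embedding.subtype _), ?_, ?_, ?_⟩
    · intro x hx
      obtain ⟨y, _, rfl⟩ := Finset.mem_map.1 hx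
      exact y.2
    · rw [card_map]
      rw [Fintype.card_coe] at hT
      have h2 : 2 * ((cross G A B).rank * (#B / q)) ≤ #B := by
        calc 2 * ((cross G A B).rank * (#B / q)) = (2 * (cross G A B).rank) * (#B / q) := by ring
          _ ≤ q * (#B / q) := Nat.mul_le_mul_right _ hq
          _ ≤ #B := Nat.mul_div_le _ _
      omega
    · intro a ha b hb
      obtain ⟨y, hy, rfl⟩ := Finset.mem_map.1 hb
      have := hT' ⟨a, ha⟩ y hy
      rw [cross_apply] at this
      intro hadj
      simp at this
      exact this hadj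

theorem purify_dense {A B : Finset V} {q : ℕ} (hq : 2 * ((cross G A B).rank + 1) ≤ q)
    (h : ∀ a ∈ A, q * #{b ∈ B | ¬ G.Adj a b} ≤ #B) :
    ∃ B' ⊆ B, #B ≤ 2 * #B' ∧ ∀ a ∈ A, ∀ b ∈ B', G.Adj a b := by
  have hq0 : 0 < q := by omega
  let M : Matrix A B ℝ := (Matrix.of fun _ _ => (1 : ℝ)) - cross G A B
  have hM : M.rank ≤ (cross G A B).rank + 1 := by
    have := rank_sub_le (Matrix.of fun (_ : A) (_ : B) => (1 : ℝ)) (cross G A B)
    have h1 := rank_const_le (m := A) (n := B) 1
    change M.rank ≤ _ at this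
    omega
  have hMa : ∀ (a : A) (b : B), M a b = if G.Adj a b then 0 else 1 := by
    intro a b
    simp only [M, Matrix.sub_apply, Matrix.of_apply, cross_apply]
    split_ifs <;> simp
  obtain ⟨T, hT, hT'⟩ := exists_zero_columns M (#B / q) (by
    intro i
    have h1 : ({j | M i j ≠ 0} : Set B).ncard = #{b ∈ B | ¬ G.Adj i b} := by
      rw [Set.ncard_eq_toFinset_card', ← Finset.card_map (Function.Embedding.subtype _)]
      congr 1
      ext x
      simp only [Finset.mem_map, Set.mem_toFinset, Function.Embedding.coe_subtype,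
        Finset.mem_filter]
      constructor
      · rintro ⟨y, hy, rfl⟩
        refine ⟨y.2, ?_⟩
        intro hne
        apply hy
        rw [hMa, if_pos hne]
      · rintro ⟨hx, hadj⟩
        refine ⟨⟨x, hx⟩, ?_, rfl⟩
        change M i ⟨x, hx⟩ ≠ 0
        rw [hMa, if_neg hadj]
        exact one_ne_zero
    rw [h1, Nat.le_div_iff_mul_le hq0, mul_comm]
    exact h i i.2)
  refine ⟨T.map (Function.Embedding.subtype _), ?_, ?_, ?_⟩
  · intro x hx
    obtain ⟨y, _, rfl⟩ := Finset.mem_map.1 hx
    exact y.2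
  · rw [card_map]
    rw [Fintype.card_coe] at hT
    have h2 : 2 * (M.rank * (#B / q)) ≤ #B := by
      calc 2 * (M.rank * (#B / q)) = (2 * M.rank) * (#B / q) := by ring
        _ ≤ q * (#B / q) := Nat.mul_le_mul_right _ (by omega)
        _ ≤ #B := Nat.mul_div_le _ _
    omega
  · intro a ha b hb
    obtain ⟨y, hy, rfl⟩ := Finset.mem_map.1 hb
    have := hT' ⟨a, ha⟩ y hy
    rw [hMa] at this
    by_contra hadj
    simp at this
    exact hadj this

/-! ### Greedy embedding -/

theorem embed_or_pair {K : Type*} [DecidableEq K] [Fintype K] [Nonempty V] (H : SimpleGraph K)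
    (q m : ℕ) (hq : 1 ≤ q) (hm : 1 ≤ m) (S : Finset K) : ∀ C : K → Finset V,
    (∀ i ∈ S, ∀ j ∈ S, i ≠ j → Disjoint (C i) (C j)) →
    (∀ i ∈ S, m * q ^ #S ≤ #(C i)) →
    (∃ f : K → V, (∀ i ∈ S, f i ∈ C i) ∧
      ∀ i ∈ S, ∀ j ∈ S, i ≠ j → (G.Adj (f i) (f j) ↔ H.Adj i j)) ∨
    (∃ A B : Finset V, Disjoint A B ∧ (∃ i ∈ S, A ⊆ C i) ∧ (∃ j ∈ S, B ⊆ C j) ∧
      m ≤ Fintype.card K * #A ∧ m ≤ #B ∧
      ((∀ a ∈ A, q * #{b ∈ B | G.Adj a b} ≤ #B) ∨
        (∀ a ∈ A, q * #{b ∈ B | ¬ G.Adj a b} ≤ #B))) := by
  classical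
  induction S using Finset.induction_on with
  | empty =>
    intro C _ _
    exact Or.inl ⟨fun _ => Classical.arbitrary V, by simp, by simp⟩
  | insert t S' ht ih =>
    intro C hdisj hcard
    have hne : ∀ i ∈ S', i ≠ t := fun i hi h => ht (h ▸ hi)
    have hS : #(insert t S') = #S' + 1 := card_insert_of_notMem ht
    by_cases hgood : ∃ v ∈ C t, ∀ j ∈ S',
        (H.Adj t j → #(C j) < q * #{b ∈ C j | G.Adj v b}) ∧
        (¬ H.Adj t j → #(C j) < q * #{b ∈ C j | ¬ G.Adj v b})
    · obtain ⟨v, hv, hvg⟩ := hgood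
      let C' : K → Finset V := fun j =>
        if H.Adj t j then {b ∈ C j | G.Adj v b} else {b ∈ C j | ¬ G.Adj v b}
      have hsub : ∀ j, C' j ⊆ C j := by
        intro j
        simp only [C']
        split_ifs <;> exact filter_subset _ _
      have hdisj' : ∀ i ∈ S', ∀ j ∈ S', i ≠ j → Disjoint (C' i) (C' j) := by
        intro i hi j hj hij
        exact (hdisj i (mem_insert_of_mem hi) j (mem_insert_of_mem hj) hij).mono (hsub i) (hsub j)
      have hcard' : ∀ i ∈ S', m * q ^ #S' ≤ #(C' i) := by
        intro i hi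
        have h1 := hcard i (mem_insert_of_mem hi)
        rw [hS, pow_succ] at h1
        have h2 : #(C i) < q * #(C' i) := by
          simp only [C']
          split_ifs with hadj
          · exact (hvg i hi).1 hadj
          · exact (hvg i hi).2 hadj
        have h3 : q * (m * q ^ #S') < q * #(C' i) := by
          calc q * (m * q ^ #S') = m * (q ^ #S' * q) := by ring
            _ ≤ #(C i) := h1
            _ < _ := h2
        exact le_of_lt (lt_of_mul_lt_mul_left h3 (Nat.zero_le _))
      rcases ih C' hdisj' hcard' with ⟨f, hf1, hf2⟩ | ⟨A, B, h1, ⟨i, hi, hi'⟩, ⟨j, hj, hj'⟩, h4⟩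
      · left
        refine ⟨Function.update f t v, ?_, ?_⟩
        · intro i hi
          rcases mem_insert.1 hi with rfl | hi2
          · simpa using hv
          · rw [Function.update_of_ne (hne i hi2)]
            exact hsub i (hf1 i hi2)
        · have haux : ∀ i ∈ S', (G.Adj v (f i) ↔ H.Adj t i) := by
            intro i hi
            have h5 := hf1 i hi
            simp only [C'] at h5
            split_ifs at h5 with hadj
            · exact ⟨fun _ => hadj, fun _ => (mem_filter.1 h5).2⟩
            · exact ⟨fun h => absurd h (mem_filter.1 h5).2, fun h => absurd h hadj⟩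
          intro i hi j hj hij
          rcases mem_insert.1 hi with rfl | hi2
          · rcases mem_insert.1 hj with rfl | hj2
            · exact absurd rfl hij
            · rw [Function.update_self, Function.update_of_ne (hne j hj2)]
              exact haux j hj2
          · rcases mem_insert.1 hj with rfl | hj2
            · rw [Function.update_self, Function.update_of_ne (hne i hi2),
                G.adj_comm, H.adj_comm]
              exact haux i hi2
            · rw [Function.update_of_ne (hne i hi2),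
                Function.update_of_ne (hne j hj2)]
              exact hf2 i hi2 j hj2 hij
      · right
        exact ⟨A, B, h1, ⟨i, mem_insert_of_mem hi, hi'.trans (hsub i)⟩,
          ⟨j, mem_insert_of_mem hj, hj'.trans (hsub j)⟩, h4⟩
    · right
      push Not at hgood
      let Bad : K → Finset V := fun j => {v ∈ C t |
        (H.Adj t j ∧ q * #{b ∈ C j | G.Adj v b} ≤ #(C j)) ∨
        (¬ H.Adj t j ∧ q * #{b ∈ C j | ¬ G.Adj v b} ≤ #(C j))}
      have hcover : C t ⊆ S'.biUnion Bad := by
        intro v hv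
        obtain ⟨j, hj, hj'⟩ := hgood v hv
        rw [mem_biUnion]
        refine ⟨j, hj, ?_⟩
        simp only [Bad, mem_filter]
        refine ⟨hv, ?_⟩
        by_cases hadj : H.Adj t j
        · left
          refine ⟨hadj, ?_⟩
          by_contra hlt
          push Not at hlt
          obtain ⟨h6, _⟩ := hj' (fun _ => hlt)
          exact h6 hadj
        · right
          refine ⟨hadj, ?_⟩
          exact (hj' (fun h => absurd h hadj)).2
      have hCt : m ≤ #(C t) := by
        refine le_trans ?_ (hcard t (mem_insert_self _ _))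
        exact Nat.le_mul_of_pos_right _ (Nat.pow_pos hq)
      have hex : ∃ j ∈ S', m ≤ Fintype.card K * #(Bad j) := by
        by_contra hne
        push Not at hne
        have h1 : #(C t) ≤ ∑ j ∈ S', #(Bad j) := (card_le_card hcover).trans card_biUnion_le
        rcases S'.eq_empty_or_nonempty with h0 | h0
        · subst h0
          simp at h1
          rw [h1] at hCt
          simp at hCt
          omega
        · have h2 : Fintype.card K * #(C t) < Fintype.card K * m := by
            calc Fintype.card K * #(C t) ≤ Fintype.card K * ∑ j ∈ S', #(Bad j) :=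
                  Nat.mul_le_mul_left _ h1
              _ = ∑ j ∈ S', Fintype.card K * #(Bad j) := by rw [mul_sum]
              _ < ∑ _j ∈ S', m := sum_lt_sum_of_nonempty h0 hne
              _ = #S' * m := by simp
              _ ≤ Fintype.card K * m := Nat.mul_le_mul_right _ (card_le_univ _)
          have h3 := lt_of_mul_lt_mul_left h2 (Nat.zero_le _)
          omega
      obtain ⟨j, hj, hjm⟩ := hex
      have htj : t ≠ j := fun h => ht (h ▸ hj)
      refine ⟨Bad j, C j, ?_, ⟨t, mem_insert_self _ _, filter_subset _ _⟩,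
        ⟨j, mem_insert_of_mem hj, Subset.rfl⟩, hjm, ?_, ?_⟩
      · exact (hdisj t (mem_insert_self _ _) j (mem_insert_of_mem hj) htj).mono_left
          (filter_subset _ _)
      · refine le_trans ?_ (hcard j (mem_insert_of_mem hj))
        exact Nat.le_mul_of_pos_right _ (Nat.pow_pos hq)
      · by_cases hadj : H.Adj t j
        · left
          intro a ha
          have := (mem_filter.1 ha).2
          rcases this with h | h
          · exact h.2
          · exact absurd hadj h.1
        · right
          intro a ha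
          have := (mem_filter.1 ha).2
          rcases this with h | h
          · exact absurd h.1 hadj
          · exact h.2

theorem exists_disjoint_family {K : Type*} [DecidableEq K] (a : ℕ) (S : Finset K) :
    ∀ X : Finset V, #S * a ≤ #X → ∃ C : K → Finset V,
      (∀ i ∈ S, C i ⊆ X ∧ #(C i) = a) ∧ ∀ i ∈ S, ∀ j ∈ S, i ≠ j → Disjoint (C i) (C j) := by
  induction S using Finset.induction_on with
  | empty => intro X _; exact ⟨fun _ => ∅, by simp, by simp⟩
  | insert t S' ht ih =>
    intro X hX
    have hne : ∀ i ∈ S', i ≠ t := fun i hi h => ht (h ▸ hi)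
    rw [card_insert_of_notMem ht, add_mul, one_mul] at hX
    obtain ⟨Y, hYX, hY⟩ := exists_subset_card_eq (s := X) (n := a) (by omega)
    have h1 : #S' * a ≤ #(X \ Y) := by
      rw [card_sdiff_of_subset hYX]
      omega
    obtain ⟨C, hC1, hC2⟩ := ih (X \ Y) h1
    refine ⟨Function.update C t Y, ?_, ?_⟩
    · intro i hi
      rcases mem_insert.1 hi with rfl | hi2
      · simpa using ⟨hYX, hY⟩
      · rw [Function.update_of_ne (hne i hi2)]
        exact ⟨(hC1 i hi2).1.trans sdiff_subset, (hC1 i hi2).2⟩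
    · intro i hi j hj hij
      rcases mem_insert.1 hi with rfl | hi2
      · rcases mem_insert.1 hj with rfl | hj2
        · exact absurd rfl hij
        · rw [Function.update_self, Function.update_of_ne (hne j hj2)]
          exact disjoint_sdiff.mono_right (hC1 j hj2).1
      · rcases mem_insert.1 hj with rfl | hj2
        · rw [Function.update_self, Function.update_of_ne (hne i hi2)]
          exact (disjoint_sdiff.mono_right (hC1 i hi2).1).symm
        · rw [Function.update_of_ne (hne i hi2),
            Function.update_of_ne (hne j hj2)]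
          exact hC2 i hi2 j hj2 hij

/-- `X` contains no induced copy of `H`. -/
def FreeOn {k : ℕ} (H : SimpleGraph (Fin k)) (X : Finset V) : Prop :=
  ¬ ∃ f : Fin k → V, Function.Injective f ∧ (∀ i, f i ∈ X) ∧
    ∀ i j, i ≠ j → (G.Adj (f i) (f j) ↔ H.Adj i j)

theorem FreeOn.mono {k : ℕ} {H : SimpleGraph (Fin k)} {X Y : Finset V} (h : FreeOn G H Y)
    (hXY : X ⊆ Y) : FreeOn G H X :=
  fun ⟨f, h1, h2, h3⟩ => h ⟨f, h1, fun i => hXY (h2 i), h3⟩

theorem exists_small_rank_subset {k : ℕ} (H : SimpleGraph (Fin k)) {r : ℕ}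
    (hr : (G.adjMatrix ℝ).rank ≤ r) (X : Finset V) (hX : X.Nonempty) (hfree : FreeOn G H X)
    (hk : 2 ≤ k) :
    ∃ Y ⊆ X, Y.Nonempty ∧ #X ≤ 8 * k ^ 2 * (2 * (r + 1)) ^ k * #Y ∧
      2 * rk G Y ≤ rk G X + 2 := by
  classical
  set q := 2 * (r + 1) with hq
  have hq1 : 1 ≤ q := by omega
  have hqk : 0 < q ^ k := Nat.pow_pos (by omega)
  have : Nonempty V := ⟨hX.choose⟩
  by_cases hsmall : #X < k * q ^ k
  · obtain ⟨v, hv⟩ := hX
    refine ⟨{v}, by simpa using hv, singleton_nonempty v, ?_, by rw [rk_singleton]; omega⟩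
    rw [card_singleton, mul_one]
    calc #X ≤ k * q ^ k := hsmall.le
      _ ≤ 8 * k ^ 2 * q ^ k := by
        gcongr
        nlinarith
  · push Not at hsmall
    set a := #X / k with ha
    have hk0 : 0 < k := by omega
    have hka : k * a ≤ #X := Nat.mul_div_le _ _
    have hka' : #X < k * (a + 1) := by
      have := Nat.lt_mul_div_succ (#X) hk0
      simpa [ha] using this
    have hqa : q ^ k ≤ a := by
      rw [ha, Nat.le_div_iff_mul_le hk0, mul_comm]
      exact hsmall
    set m := a / q ^ k with hm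
    have hm1 : 1 ≤ m := by
      rw [hm, Nat.le_div_iff_mul_le hqk]
      omega
    have hmq : m * q ^ k ≤ a := Nat.div_mul_le_self _ _
    have hmq' : a < q ^ k * (m + 1) := by
      have := Nat.lt_mul_div_succ a hqk
      simpa [hm] using this
    obtain ⟨C, hC1, hC2⟩ := exists_disjoint_family (V := V) a (Finset.univ : Finset (Fin k)) X
      (by simpa using hka)
    have hcardC : ∀ i ∈ (Finset.univ : Finset (Fin k)), m * q ^ #(Finset.univ : Finset (Fin k)) ≤
        #(C i) := by
      intro i hi
      rw [(hC1 i hi).2]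
      simpa using hmq
    -- final size bound
    have hfinal : ∀ y : ℕ, m ≤ 2 * k * y → #X ≤ 8 * k ^ 2 * q ^ k * y := by
      intro y hy
      have h1 : a ≤ 2 * (q ^ k * m) := by
        have : q ^ k * (m + 1) ≤ 2 * (q ^ k * m) := by nlinarith
        omega
      have h2 : #X ≤ 2 * (k * a) := by
        have : k * (a + 1) ≤ 2 * (k * a) := by nlinarith
        omega
      calc #X ≤ 2 * (k * a) := h2
        _ ≤ 2 * (k * (2 * (q ^ k * m))) := by gcongr
        _ ≤ 2 * (k * (2 * (q ^ k * (2 * k * y)))) := by gcongr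
        _ = 8 * k ^ 2 * q ^ k * y := by ring
    rcases embed_or_pair G H q m hq1 hm1 Finset.univ C hC2 hcardC with
      ⟨f, hf1, hf2⟩ | ⟨A, B, hAB, ⟨i, hi, hi'⟩, ⟨j, hj, hj'⟩, hA, hB, hpure⟩
    · exfalso
      apply hfree
      refine ⟨f, ?_, fun i => (hC1 i (mem_univ _)).1 (hf1 i (mem_univ _)),
        fun i j hij => hf2 i (mem_univ _) j (mem_univ _) hij⟩
      intro i j hij
      by_contra hne
      have := hC2 i (mem_univ _) j (mem_univ _) hne
      rw [Finset.disjoint_left] at this
      exact this (hf1 i (mem_univ _)) (hij ▸ hf1 j (mem_univ _))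
    · have hAX : A ⊆ X := hi'.trans (hC1 i hi).1
      have hBX : B ⊆ X := hj'.trans (hC1 j hj).1
      rw [Fintype.card_fin] at hA
      have hAne : A.Nonempty := by
        rw [← card_pos]
        by_contra h0
        have : #A = 0 := by omega
        rw [this] at hA
        omega
      -- get a pure pair
      obtain ⟨B', hB'B, hB'card, c, hc⟩ : ∃ B' ⊆ B, #B ≤ 2 * #B' ∧ ∃ c : ℝ,
          ∀ a ∈ A, ∀ b ∈ B', (if G.Adj a b then (1 : ℝ) else 0) = c := by
        have hrank := cross_rank_le G A B
        rcases hpure with hs | hd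
        · obtain ⟨B', h1, h2, h3⟩ := purify_sparse G (A := A) (B := B) (q := q)
            (by rw [hq]; omega) hs
          exact ⟨B', h1, h2, 0, fun a ha b hb => if_neg (h3 a ha b hb)⟩
        · obtain ⟨B', h1, h2, h3⟩ := purify_dense G (A := A) (B := B) (q := q)
            (by rw [hq]; omega) hd
          exact ⟨B', h1, h2, 1, fun a ha b hb => if_pos (h3 a ha b hb)⟩
      have hB'ne : B'.Nonempty := by
        rw [← card_pos]
        omega
      have hsum := rk_add_le G (A := A) (B := B') c hc
      have hmono : rk G (A ∪ B') ≤ rk G X :=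
        rk_mono G (union_subset hAX (hB'B.trans hBX))
      by_cases hle : rk G A ≤ rk G B'
      · refine ⟨A, hAX, hAne, hfinal _ ?_, by omega⟩
        nlinarith
      · refine ⟨B', hB'B.trans hBX, hB'ne, hfinal _ ?_, by omega⟩
        nlinarith

/-! ### Independent sets -/

/-- the quantity `8 k² (2 (r + 1)) ^ k` -/
def DD (k r : ℕ) : ℕ := 8 * k ^ 2 * (2 * (r + 1)) ^ k

theorem exists_indep {k : ℕ} (H : SimpleGraph (Fin k)) {r : ℕ}
    (hr : (G.adjMatrix ℝ).rank ≤ r) (hk : 2 ≤ k) (j : ℕ) : ∀ X : Finset V, X.Nonempty →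
    FreeOn G H X → rk G X ≤ 2 ^ j + 2 →
    ∃ I ⊆ X, #X ≤ 8 * DD k r ^ j * #I ∧ ∀ u ∈ I, ∀ v ∈ I, ¬ G.Adj u v := by
  classical
  induction j with
  | zero =>
    intro X hX _ hrk
    let f : V → (X → ℝ) := fun u x => if G.Adj u x then (1 : ℝ) else 0
    have himg : #(X.image f) ≤ 8 := by
      have h1 := card_rows_le (cross G X X) (fun i j => by
        rw [cross_apply]; split_ifs <;> simp)
      have h2 : (Set.range (cross G X X).row).ncard = #(X.image f) := by
        rw [← Set.ncard_coe_finset]
        congr 1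
        ext v
        simp only [Set.mem_range, Finset.coe_image, Set.mem_image, Finset.mem_coe]
        constructor
        · rintro ⟨i, rfl⟩
          refine ⟨i, i.2, ?_⟩
          funext x
          exact (cross_apply G X X i x).symm
        · rintro ⟨u, hu, rfl⟩
          refine ⟨⟨u, hu⟩, ?_⟩
          funext x
          exact cross_apply G X X ⟨u, hu⟩ x
      rw [← h2]
      refine h1.trans ?_
      calc 2 ^ (cross G X X).rank ≤ 2 ^ 3 := Nat.pow_le_pow_right (by norm_num) hrk
        _ = 8 := by norm_num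
    obtain ⟨y, _, hy⟩ := exists_le_card_fiber_of_nsmul_le_card_of_maps_to (M := ℚ)
      (s := X) (t := X.image f) (f := f) (b := (#X : ℚ) / 8)
      (fun a ha => mem_image_of_mem f ha) (hX.image f) (by
        rw [nsmul_eq_mul]
        have : ((#(X.image f) : ℕ) : ℚ) ≤ 8 := by exact_mod_cast himg
        have h0 : (0 : ℚ) ≤ #X := Nat.cast_nonneg _
        nlinarith)
    refine ⟨{x ∈ X | f x = y}, filter_subset _ _, ?_, ?_⟩
    · rw [div_le_iff₀ (by norm_num)] at hy
      have : (#X : ℚ) ≤ ((8 * DD k r ^ 0 * #{x ∈ X | f x = y} : ℕ) : ℚ) := by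
        push_cast
        linarith
      exact_mod_cast this
    · intro u hu v hv hadj
      have h1 := (mem_filter.1 hu).2
      have h2 := (mem_filter.1 hv).2
      have hvX := (mem_filter.1 hv).1
      have h3 : f u ⟨v, hvX⟩ = f v ⟨v, hvX⟩ := congrFun (h1.trans h2.symm) _
      simp [f, hadj] at h3
  | succ j ih =>
    intro X hX hfree hrk
    obtain ⟨Y, hYX, hYne, hYcard, hYrk⟩ := exists_small_rank_subset G H hr X hX hfree hk
    obtain ⟨I, hIY, hIcard, hI⟩ := ih Y hYne (hfree.mono G hYX) (by
      rw [pow_succ] at hrk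
      omega)
    refine ⟨I, hIY.trans hYX, ?_, hI⟩
    calc #X ≤ DD k r * #Y := hYcard
      _ ≤ DD k r * (8 * DD k r ^ j * #I) := by gcongr
      _ = 8 * DD k r ^ (j + 1) * #I := by ring

/-! ### Greedy colouring -/

/-- `X` can be properly coloured with `m` colours. -/
def Col (X : Finset V) (m : ℕ) : Prop :=
  ∃ c : V → ℕ, (∀ v ∈ X, c v < m) ∧ ∀ u ∈ X, ∀ v ∈ X, G.Adj u v → c u ≠ c v

theorem greedy {M : ℕ} {R : Finset V}
    (h : ∀ U ⊆ R, U.Nonempty → ∃ I ⊆ U, #U ≤ M * #I ∧ ∀ u ∈ I, ∀ v ∈ I, ¬ G.Adj u v) (m : ℕ) :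
    ∀ U ⊆ R, #U * (M - 1) ^ m < M ^ m → Col G U m := by
  induction m with
  | zero =>
    intro U _ hcard
    have : U = ∅ := by
      rw [← card_eq_zero]
      simp at hcard
      simpa using hcard
    subst this
    exact ⟨fun _ => 0, by simp, by simp⟩
  | succ m ih =>
    intro U hU hcard
    rcases U.eq_empty_or_nonempty with h0 | h0
    · subst h0
      exact ⟨fun _ => 0, by simp, by simp⟩
    obtain ⟨I, hIU, hIcard, hI⟩ := h U hU h0
    have hM : 1 ≤ M := by
      by_contra hM
      have : M = 0 := by omega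
      subst this
      simp at hIcard
      exact h0.ne_empty hIcard
    obtain ⟨c, hc1, hc2⟩ := ih (U \ I) (sdiff_subset.trans hU) (by
      have h1 : #(U \ I) = #U - #I := card_sdiff_of_subset hIU
      have h2 : #I ≤ #U := card_le_card hIU
      have h3 : M * #(U \ I) ≤ (M - 1) * #U := by
        rw [h1, Nat.mul_sub, Nat.sub_mul, one_mul]
        omega
      have h4 : M * (#(U \ I) * (M - 1) ^ m) < M * M ^ m := by
        calc M * (#(U \ I) * (M - 1) ^ m) = (M * #(U \ I)) * (M - 1) ^ m := by ring
          _ ≤ ((M - 1) * #U) * (M - 1) ^ m := Nat.mul_le_mul_right _ h3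
          _ = #U * (M - 1) ^ (m + 1) := by ring
          _ < M ^ (m + 1) := hcard
          _ = M * M ^ m := by ring
      exact lt_of_mul_lt_mul_left h4 (Nat.zero_le _))
    refine ⟨fun v => if v ∈ I then m else c v, ?_, ?_⟩
    · intro v hv
      dsimp only
      split_ifs with hvI
      · omega
      · have := hc1 v (mem_sdiff.2 ⟨hv, hvI⟩)
        omega
    · intro u hu v hv hadj
      dsimp only
      split_ifs with huI hvI hvI
      · exact absurd hadj (hI u huI v hvI)
      · have := hc1 v (mem_sdiff.2 ⟨hv, hvI⟩)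
        omega
      · have := hc1 u (mem_sdiff.2 ⟨hu, huI⟩)
        omega
      · exact hc2 u (mem_sdiff.2 ⟨hu, huI⟩) v (mem_sdiff.2 ⟨hv, hvI⟩) hadj

theorem two_mul_pow_lt (N : ℕ) : 2 * N ^ (N + 1) < (N + 1) ^ (N + 1) := by
  have key : ∀ k : ℕ, N ^ k * (N + k) ≤ (N + 1) ^ k * N := by
    intro k
    induction k with
    | zero => simp
    | succ k ih =>
      have h1 : N ^ k ≤ (N + 1) ^ k := Nat.pow_le_pow_left (Nat.le_succ N) k
      calc N ^ (k + 1) * (N + (k + 1)) = N * (N ^ k * (N + k)) + N * N ^ k := by ring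
        _ ≤ N * ((N + 1) ^ k * N) + N * (N + 1) ^ k := by gcongr
        _ = (N + 1) ^ (k + 1) * N := by ring
  rcases Nat.eq_zero_or_pos N with h0 | h0
  · subst h0; norm_num
  · have h1 := key (N + 1)
    have h2 : 0 < N ^ (N + 1) := Nat.pow_pos h0
    have h3 : (2 * N ^ (N + 1)) * N < (N + 1) ^ (N + 1) * N := by
      calc (2 * N ^ (N + 1)) * N < N ^ (N + 1) * (N + (N + 1)) := by nlinarith
        _ ≤ _ := h1
    exact lt_of_mul_lt_mul_right h3 (Nat.zero_le _)

theorem greedy_size {n M r : ℕ} (hr : 1 ≤ r) (hM : 1 ≤ M) (hn : n ≤ 2 ^ r) :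
    n * (M - 1) ^ (M * r) < M ^ (M * r) := by
  obtain ⟨N, rfl⟩ : ∃ N, M = N + 1 := ⟨M - 1, by omega⟩
  simp only [Nat.add_sub_cancel]
  calc n * N ^ ((N + 1) * r) ≤ 2 ^ r * N ^ ((N + 1) * r) := Nat.mul_le_mul_right _ hn
    _ = (2 * N ^ (N + 1)) ^ r := by rw [pow_mul, mul_pow]
    _ < ((N + 1) ^ (N + 1)) ^ r := Nat.pow_lt_pow_left (two_mul_pow_lt N) (by omega)
    _ = (N + 1) ^ ((N + 1) * r) := by rw [pow_mul]

/-- Twin reduction: a set of vertices is coloured as well as a set of representatives of the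
distinct rows of the adjacency matrix. -/
theorem exists_reps (P : Finset V) : ∃ R ⊆ P, #R ≤ 2 ^ (G.adjMatrix ℝ).rank ∧
    ∀ m, Col G R m → Col G P m := by
  classical
  let f : V → (V → ℝ) := fun v => (G.adjMatrix ℝ).row v
  obtain ⟨R, hRP, hinj, himg⟩ := Finset.exists_subset_injOn_image_eq_of_surjOn (f := f)
    (P : Set V) (P.image f) (by
      intro y hy
      rw [Finset.coe_image] at hy
      exact hy)
  have hRP' : R ⊆ P := by exact_mod_cast hRP
  refine ⟨R, hRP', ?_, ?_⟩
  · rw [← card_image_of_injOn hinj]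
    have h1 := card_rows_le (G.adjMatrix ℝ) (fun i j => by
      rw [SimpleGraph.adjMatrix_apply]; split_ifs <;> simp)
    refine le_trans ?_ h1
    rw [← Set.ncard_coe_finset]
    apply Set.ncard_le_ncard _ (Set.finite_range _)
    intro y hy
    rw [Finset.coe_image] at hy
    obtain ⟨v, _, rfl⟩ := hy
    exact ⟨v, rfl⟩
  · rintro m ⟨c, hc1, hc2⟩
    have hrep : ∀ v : V, v ∈ P → ∃ w ∈ R, f w = f v := by
      intro v hv
      have : f v ∈ R.image f := by rw [himg]; exact mem_image_of_mem f hv
      obtain ⟨w, hw, hw'⟩ := mem_image.1 this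
      exact ⟨w, hw, hw'⟩
    let rep : V → V := fun v => if h : v ∈ P then (hrep v h).choose else v
    have hrep1 : ∀ v ∈ P, rep v ∈ R := by
      intro v hv
      simp only [rep, hv, dite_true]
      exact (hrep v hv).choose_spec.1
    have hrep2 : ∀ v ∈ P, ∀ w, G.Adj (rep v) w ↔ G.Adj v w := by
      intro v hv w
      have h1 : f (rep v) = f v := by
        simp only [rep, hv, dite_true]
        exact (hrep v hv).choose_spec.2
      have h2 : (G.adjMatrix ℝ) (rep v) w = (G.adjMatrix ℝ) v w := congrFun h1 w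
      rw [SimpleGraph.adjMatrix_apply, SimpleGraph.adjMatrix_apply] at h2
      by_cases ha : G.Adj (rep v) w <;> by_cases hb : G.Adj v w <;> simp [ha, hb] at h2 ⊢
    refine ⟨fun v => c (rep v), fun v hv => hc1 _ (hrep1 v hv), ?_⟩
    intro u hu v hv hadj
    apply hc2 _ (hrep1 u hu) _ (hrep1 v hv)
    rw [hrep2 u hu, G.adj_comm, hrep2 v hv, G.adj_comm]
    exact hadj

/-- The combinatorial heart: an explicit bound for the number of colours. -/
theorem colorable_of_parts {k t r T : ℕ} (hk : 2 ≤ k) (hr1 : 1 ≤ r)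
    (hr : (G.adjMatrix ℝ).rank ≤ r) (hT : r ≤ 2 ^ T + 2) (p : V → Fin t)
    (hfree : ∀ i : Fin t, ∃ H : SimpleGraph (Fin k), FreeOn G H {v | p v = i}) :
    G.Colorable (t * (8 * DD k r ^ T * r)) := by
  classical
  have hpart : ∀ i : Fin t, Col G {v | p v = i} (8 * DD k r ^ T * r) := by
    intro i
    obtain ⟨H, hH⟩ := hfree i
    obtain ⟨R, hRP, hRcard, hR⟩ := exists_reps G ({v | p v = i} : Finset V)
    apply hR
    have hD : 1 ≤ DD k r := by
      unfold DD
      have : 0 < (2 * (r + 1)) ^ k := Nat.pow_pos (by omega)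
      have : 0 < k ^ 2 := Nat.pow_pos (by omega)
      have := Nat.mul_pos (Nat.mul_pos (show 0 < 8 by norm_num) this) ‹0 < (2 * (r + 1)) ^ k›
      omega
    refine greedy G (M := 8 * DD k r ^ T) (R := R) ?_ _ R Subset.rfl ?_
    · intro U hU hne
      exact exists_indep G H hr hk T U hne (hH.mono G (hU.trans hRP))
        (((rk_le G U).trans hr).trans hT)
    · apply greedy_size hr1
      · have := Nat.pow_pos (n := T) hD
        omega
      · exact hRcard.trans (Nat.pow_le_pow_right (by norm_num) hr)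
  choose c hc1 hc2 using hpart
  rw [← Fintype.card_fin (t * (8 * DD k r ^ T * r))]
  have hlt : ∀ v : V, c (p v) v < 8 * DD k r ^ T * r := fun v => hc1 (p v) v (by simp)
  let C : G.Coloring (Fin t × Fin (8 * DD k r ^ T * r)) :=
    SimpleGraph.Coloring.mk (fun v => (p v, ⟨c (p v) v, hlt v⟩)) (by
      intro u v hadj heq
      simp only [Prod.mk.injEq, Fin.mk.injEq] at heq
      obtain ⟨h1, h2⟩ := heq
      apply hc2 (p u) u (by simp) v (by simp [h1]) hadj
      rw [h2, h1])
  have := C.colorable
  simpa using this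

end Pool.Agent.Helper26
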