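import Pool.Agent.Helper28.JM.BDefs

/-!
# The base regions
-/

set_option autoImplicit false

namespace Pool.Agent.Helper28.JM

theorem count_nu {n : ℕ} (W : Pt → ℝ) (E : Multiset (Pt × Pt)) (r : Fin n → Pt × Pt)
    (hr : Function.Injective r) (hE : ∀ R ∈ E, ∃ k, r k = R) (x : Pt) :
    Multiset.count x (nu W E) =
      ∑ k, Multiset.count (r k) E * Multiset.count x (ld W (r k)) := by
  classical
  induction E using Multiset.induction_on with
  | empty => simp [nu]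
  | cons R E ih =>
    have ih' := ih (fun R' hR' => hE R' (Multiset.mem_cons_of_mem hR'))
    obtain ⟨k, hk⟩ := hE R (Multiset.mem_cons_self _ _)
    rw [nu, Multiset.map_cons, Multiset.sum_cons, Multiset.count_add]
    rw [nu] at ih'
    rw [ih']
    have h1 : ∀ j, Multiset.count (r j) (R ::ₘ E) =
        Multiset.count (r j) E + if j = k then 1 else 0 := by
      intro j
      rw [Multiset.count_cons, ← hk]
      simp only [hr.eq_iff]
    simp only [h1, add_mul, Finset.sum_add_distrib, ite_mul, one_mul, zero_mul,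
      Finset.sum_ite_eq', Finset.mem_univ, if_true]
    rw [hk, add_comm]

theorem ext_of_count {n : ℕ} (E E' : Multiset (Pt × Pt)) (r : Fin n → Pt × Pt)
    (hE : ∀ R ∈ E, ∃ k, r k = R) (hE' : ∀ R ∈ E', ∃ k, r k = R)
    (h : ∀ k, Multiset.count (r k) E = Multiset.count (r k) E') : E = E' := by
  classical
  refine Multiset.ext.2 fun R => ?_
  by_cases hR : ∃ k, r k = R
  · obtain ⟨k, rfl⟩ := hR
    exact h k
  · rw [Multiset.count_eq_zero.2 (fun h => hR (hE R h)),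
      Multiset.count_eq_zero.2 (fun h => hR (hE' R h))]

theorem tot_of_no_rect (Λ : Set Pt) (W : Pt → ℝ) (h : Mn Λ = ∅) : Tot Λ W := by
  refine ⟨fun R hR => ?_, fun E E' hE hE' _ _ _ => ?_⟩
  · rw [h] at hR
    exact absurd hR (Set.notMem_empty R)
  · rw [h] at hE hE'
    rw [Multiset.eq_zero_of_forall_notMem (fun R hR => Set.notMem_empty R (hE R hR)),
      Multiset.eq_zero_of_forall_notMem (fun R hR => Set.notMem_empty R (hE' R hR))]

/-! ### The block -/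

/-- The rectangle with given corners relative to `u`. -/
def rc (u : Pt) (a b c d : ℤ) : Pt × Pt := ((u.1 + a, u.2 + b), (u.1 + c, u.2 + d))

/-- The nine rectangles of a block. -/
def r9 (u : Pt) : Fin 9 → Pt × Pt :=
  ![rc u 0 0 1 1, rc u 0 0 1 2, rc u 0 1 1 2, rc u 0 0 2 1, rc u 0 0 2 2, rc u 0 1 2 2,
    rc u 1 0 2 1, rc u 1 0 2 2, rc u 1 1 2 2]

theorem rc_inj (u : Pt) (a b c d a' b' c' d' : ℤ) :
    rc u a b c d = rc u a' b' c' d' ↔ a = a' ∧ b = b' ∧ c = c' ∧ d = d' := by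
  simp [rc, and_assoc]

theorem r9_inj (u : Pt) : Function.Injective (r9 u) := by
  intro i j h
  fin_cases i <;> fin_cases j <;> simp [r9, rc_inj] at h ⊢

theorem mn_blk (u : Pt) (R : Pt × Pt) (hR : R ∈ Mn (blk u)) : ∃ k, r9 u k = R := by
  obtain ⟨⟨a, b⟩, ⟨c, d⟩⟩ := R
  obtain ⟨h1, h2, h3, h4⟩ := hR
  simp only [blk, Set.mem_ofPred_eq] at h1 h2 h3 h4
  obtain ⟨a', rfl⟩ : ∃ a', a = u.1 + a' := ⟨a - u.1, by ring⟩
  obtain ⟨b', rfl⟩ : ∃ b', b = u.2 + b' := ⟨b - u.2, by ring⟩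
  obtain ⟨c', rfl⟩ : ∃ c', c = u.1 + c' := ⟨c - u.1, by ring⟩
  obtain ⟨d', rfl⟩ : ∃ d', d = u.2 + d' := ⟨d - u.2, by ring⟩
  have hac : (a' = 0 ∧ c' = 1) ∨ (a' = 0 ∧ c' = 2) ∨ (a' = 1 ∧ c' = 2) := by omega
  have hbd : (b' = 0 ∧ d' = 1) ∨ (b' = 0 ∧ d' = 2) ∨ (b' = 1 ∧ d' = 2) := by omega
  rcases hac with ⟨rfl, rfl⟩ | ⟨rfl, rfl⟩ | ⟨rfl, rfl⟩ <;>
    rcases hbd with ⟨rfl, rfl⟩ | ⟨rfl, rfl⟩ | ⟨rfl, rfl⟩
  · exact ⟨0, rfl⟩
  · exact ⟨1, rfl⟩
  · exact ⟨2, rfl⟩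
  · exact ⟨3, rfl⟩
  · exact ⟨4, rfl⟩
  · exact ⟨5, rfl⟩
  · exact ⟨6, rfl⟩
  · exact ⟨7, rfl⟩
  · exact ⟨8, rfl⟩

theorem blkW_eq (u : Pt) (a b : ℤ) :
    blkW u (u.1 + a, u.2 + b) = if a + b = 2 then 1 else 0 := by
  unfold blkW
  simp only
  by_cases h : a + b = 2
  · rw [if_pos (by omega), if_pos h]
  · rw [if_neg (by omega), if_neg h]

theorem mem_blk (u : Pt) (a b : ℤ) (ha : 0 ≤ a) (ha' : a ≤ 2) (hb : 0 ≤ b) (hb' : b ≤ 2) :
    (u.1 + a, u.2 + b) ∈ blk u := by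
  simp only [blk, Set.mem_ofPred_eq]
  omega

theorem ld_rc (u : Pt) (W : Pt → ℝ) (hW : ∀ x ∈ blk u, W x = blkW u x) (a b c d : ℤ)
    (ha : 0 ≤ a) (hac : a < c) (hc : c ≤ 2) (hb : 0 ≤ b) (hbd : b < d) (hd : d ≤ 2) :
    ld W (rc u a b c d) = if (a + b = 2 ∨ c + d = 2) then
      {(u.1 + a, u.2 + b), (u.1 + c, u.2 + d)} else
      {(u.1 + a, u.2 + d), (u.1 + c, u.2 + b)} := by
  have e1 := hW _ (mem_blk u a b ha (by omega) hb (by omega))
  have e2 := hW _ (mem_blk u c d (by omega) hc (by omega) hd)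
  have e3 := hW _ (mem_blk u a d ha (by omega) (by omega) hd)
  have e4 := hW _ (mem_blk u c b (by omega) hc hb (by omega))
  rw [blkW_eq] at e1 e2 e3 e4
  have hac' : (a = 0 ∧ c = 1) ∨ (a = 0 ∧ c = 2) ∨ (a = 1 ∧ c = 2) := by omega
  have hbd' : (b = 0 ∧ d = 1) ∨ (b = 0 ∧ d = 2) ∨ (b = 1 ∧ d = 2) := by omega
  unfold ld IsD rc
  simp only [e1, e2, e3, e4]
  rcases hac' with ⟨rfl, rfl⟩ | ⟨rfl, rfl⟩ | ⟨rfl, rfl⟩ <;>
    rcases hbd' with ⟨rfl, rfl⟩ | ⟨rfl, rfl⟩ | ⟨rfl, rfl⟩ <;> norm_num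

theorem ld_r9 (u : Pt) (W : Pt → ℝ) (hW : ∀ x ∈ blk u, W x = blkW u x) :
    ld W (r9 u 0) = {(u.1 + 0, u.2 + 0), (u.1 + 1, u.2 + 1)} ∧
    ld W (r9 u 1) = {(u.1 + 0, u.2 + 2), (u.1 + 1, u.2 + 0)} ∧
    ld W (r9 u 2) = {(u.1 + 0, u.2 + 2), (u.1 + 1, u.2 + 1)} ∧
    ld W (r9 u 3) = {(u.1 + 0, u.2 + 1), (u.1 + 2, u.2 + 0)} ∧
    ld W (r9 u 4) = {(u.1 + 0, u.2 + 2), (u.1 + 2, u.2 + 0)} ∧
    ld W (r9 u 5) = {(u.1 + 0, u.2 + 2), (u.1 + 2, u.2 + 1)} ∧
    ld W (r9 u 6) = {(u.1 + 1, u.2 + 1), (u.1 + 2, u.2 + 0)} ∧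
    ld W (r9 u 7) = {(u.1 + 1, u.2 + 2), (u.1 + 2, u.2 + 0)} ∧
    ld W (r9 u 8) = {(u.1 + 1, u.2 + 1), (u.1 + 2, u.2 + 2)} := by
  refine ⟨?_, ?_, ?_, ?_, ?_, ?_, ?_, ?_, ?_⟩
  · exact (ld_rc u W hW 0 0 1 1 (by norm_num) (by norm_num) (by norm_num) (by norm_num)
      (by norm_num) (by norm_num)).trans (by norm_num)
  · exact (ld_rc u W hW 0 0 1 2 (by norm_num) (by norm_num) (by norm_num) (by norm_num)
      (by norm_num) (by norm_num)).trans (by norm_num)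
  · exact (ld_rc u W hW 0 1 1 2 (by norm_num) (by norm_num) (by norm_num) (by norm_num)
      (by norm_num) (by norm_num)).trans (by norm_num)
  · exact (ld_rc u W hW 0 0 2 1 (by norm_num) (by norm_num) (by norm_num) (by norm_num)
      (by norm_num) (by norm_num)).trans (by norm_num)
  · exact (ld_rc u W hW 0 0 2 2 (by norm_num) (by norm_num) (by norm_num) (by norm_num)
      (by norm_num) (by norm_num)).trans (by norm_num)
  · exact (ld_rc u W hW 0 1 2 2 (by norm_num) (by norm_num) (by norm_num) (by norm_num)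
      (by norm_num) (by norm_num)).trans (by norm_num)
  · exact (ld_rc u W hW 1 0 2 1 (by norm_num) (by norm_num) (by norm_num) (by norm_num)
      (by norm_num) (by norm_num)).trans (by norm_num)
  · exact (ld_rc u W hW 1 0 2 2 (by norm_num) (by norm_num) (by norm_num) (by norm_num)
      (by norm_num) (by norm_num)).trans (by norm_num)
  · exact (ld_rc u W hW 1 1 2 2 (by norm_num) (by norm_num) (by norm_num) (by norm_num)
      (by norm_num) (by norm_num)).trans (by norm_num)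

theorem mn_blk' (u : Pt) (R : Pt × Pt) (hR : R ∈ Mn (blk u)) : ∃ a b c d : ℤ,
    R = rc u a b c d ∧ ((a = 0 ∧ c = 1) ∨ (a = 0 ∧ c = 2) ∨ (a = 1 ∧ c = 2)) ∧
    ((b = 0 ∧ d = 1) ∨ (b = 0 ∧ d = 2) ∨ (b = 1 ∧ d = 2)) := by
  obtain ⟨⟨a, b⟩, ⟨c, d⟩⟩ := R
  obtain ⟨h1, h2, h3, h4⟩ := hR
  simp only [blk, Set.mem_ofPred_eq] at h1 h2 h3 h4
  obtain ⟨a', rfl⟩ : ∃ a', a = u.1 + a' := ⟨a - u.1, by ring⟩
  obtain ⟨b', rfl⟩ : ∃ b', b = u.2 + b' := ⟨b - u.2, by ring⟩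
  obtain ⟨c', rfl⟩ : ∃ c', c = u.1 + c' := ⟨c - u.1, by ring⟩
  obtain ⟨d', rfl⟩ : ∃ d', d = u.2 + d' := ⟨d - u.2, by ring⟩
  exact ⟨a', b', c', d', rfl, by omega, by omega⟩

theorem sum9 (f : Fin 9 → ℕ) :
    ∑ k, f k = f 0 + f 1 + f 2 + f 3 + f 4 + f 5 + f 6 + f 7 + f 8 := by
  rw [Fin.sum_univ_castSucc, Fin.sum_univ_eight]
  rfl

theorem count_pair (u : Pt) (x y a b c d : ℤ) :
    Multiset.count (u.1 + x, u.2 + y) ({(u.1 + a, u.2 + b), (u.1 + c, u.2 + d)} : Multiset Pt) =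
      (if x = a ∧ y = b then 1 else 0) + (if x = c ∧ y = d then 1 else 0) := by
  rw [Multiset.insert_eq_cons, Multiset.count_cons, Multiset.count_singleton, add_comm]
  simp only [Prod.mk.injEq, add_right_inj]

theorem nu_blk (u : Pt) (E : Multiset (Pt × Pt)) (hE : ∀ R ∈ E, R ∈ Mn (blk u)) (x y : ℤ) :
    Multiset.count (u.1 + x, u.2 + y) (nu (blkW u) E) =
      Multiset.count (r9 u 0) E * ((if x = 0 ∧ y = 0 then 1 else 0) + (if x = 1 ∧ y = 1 then 1 else 0)) +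
      Multiset.count (r9 u 1) E * ((if x = 0 ∧ y = 2 then 1 else 0) + (if x = 1 ∧ y = 0 then 1 else 0)) +
      Multiset.count (r9 u 2) E * ((if x = 0 ∧ y = 2 then 1 else 0) + (if x = 1 ∧ y = 1 then 1 else 0)) +
      Multiset.count (r9 u 3) E * ((if x = 0 ∧ y = 1 then 1 else 0) + (if x = 2 ∧ y = 0 then 1 else 0)) +
      Multiset.count (r9 u 4) E * ((if x = 0 ∧ y = 2 then 1 else 0) + (if x = 2 ∧ y = 0 then 1 else 0)) +
      Multiset.count (r9 u 5) E * ((if x = 0 ∧ y = 2 then 1 else 0) + (if x = 2 ∧ y = 1 then 1 else 0)) +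
      Multiset.count (r9 u 6) E * ((if x = 1 ∧ y = 1 then 1 else 0) + (if x = 2 ∧ y = 0 then 1 else 0)) +
      Multiset.count (r9 u 7) E * ((if x = 1 ∧ y = 2 then 1 else 0) + (if x = 2 ∧ y = 0 then 1 else 0)) +
      Multiset.count (r9 u 8) E * ((if x = 1 ∧ y = 1 then 1 else 0) + (if x = 2 ∧ y = 2 then 1 else 0)) := by
  rw [count_nu (blkW u) E (r9 u) (r9_inj u) (fun R hR => mn_blk u R (hE R hR)), sum9]
  obtain ⟨l0, l1, l2, l3, l4, l5, l6, l7, l8⟩ := ld_r9 u (blkW u) (fun _ _ => rfl)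
  rw [l0, l1, l2, l3, l4, l5, l6, l7, l8]
  simp only [count_pair]

theorem tot_blk (u : Pt) : Tot (blk u) (blkW u) := by
  refine ⟨fun R hR => ?_, fun E E' hE hE' _ _ h => ?_⟩
  · obtain ⟨a, b, c, d, rfl, hac, hbd⟩ := mn_blk' u R hR
    unfold rc
    simp only [blkW_eq]
    rcases hac with ⟨rfl, rfl⟩ | ⟨rfl, rfl⟩ | ⟨rfl, rfl⟩ <;>
      rcases hbd with ⟨rfl, rfl⟩ | ⟨rfl, rfl⟩ | ⟨rfl, rfl⟩ <;> norm_num
  · have key : ∀ x y : ℤ, Multiset.count (u.1 + x, u.2 + y) (nu (blkW u) E) =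
        Multiset.count (u.1 + x, u.2 + y) (nu (blkW u) E') := fun x y => by rw [h]
    have k00 := key 0 0
    have k10 := key 1 0
    have k01 := key 0 1
    have k21 := key 2 1
    have k12 := key 1 2
    have k22 := key 2 2
    have k02 := key 0 2
    have k20 := key 2 0
    have k11 := key 1 1
    rw [nu_blk u E hE, nu_blk u E' hE'] at k00 k10 k01 k21 k12 k22 k02 k20 k11
    norm_num at k00 k10 k01 k21 k12 k22 k02 k20 k11
    refine ext_of_count E E' (r9 u) (fun R hR => mn_blk u R (hE R hR))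
      (fun R hR => mn_blk u R (hE' R hR)) fun k => ?_
    fin_cases k
    · exact k00
    · exact k10
    · show Multiset.count (r9 u 2) E = Multiset.count (r9 u 2) E'
      omega
    · exact k01
    · show Multiset.count (r9 u 4) E = Multiset.count (r9 u 4) E'
      omega
    · exact k21
    · show Multiset.count (r9 u 6) E = Multiset.count (r9 u 6) E'
      omega
    · exact k12
    · exact k22

theorem mem_pair (u : Pt) (x y a b c d : ℤ) :
    (u.1 + x, u.2 + y) ∈ ({(u.1 + a, u.2 + b), (u.1 + c, u.2 + d)} : Multiset Pt) ↔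
      (x = a ∧ y = b) ∨ (x = c ∧ y = d) := by
  rw [Multiset.insert_eq_cons, Multiset.mem_cons, Multiset.mem_singleton]
  simp only [Prod.mk.injEq, add_right_inj]

theorem stF_blk (u : Pt) (B : Set Pt) (W : Pt → ℝ) (hB : ∀ x ∈ B, u.1 ≤ x.1 ∧ u.2 ≤ x.2)
    (hsub : blk u ⊆ B) (h1 : (u.1, u.2 + 3) ∉ B) (hrect : RectP B)
    (hW : ∀ x ∈ blk u, W x = blkW u x)
    (hnew : ∀ R ∈ Mn B, R ∉ Mn (blk u) → ∀ x ∈ ld W R, u.1 + u.2 + 2 ≤ x.1 + x.2) :
    StF B W u.1 u.2 2 true := by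
  have hWv : ∀ a b : ℤ, 0 ≤ a → a ≤ 2 → 0 ≤ b → b ≤ 2 →
      W (u.1 + a, u.2 + b) = if a + b = 2 then 1 else 0 := by
    intro a b h1 h2 h3 h4
    rw [hW _ (mem_blk u a b h1 h2 h3 h4), blkW_eq]
  have hva : ∀ i, va u.1 u.2 true i = (u.1 + 0, u.2 + i) := fun i => by simp [va]
  have hvb : ∀ i, vb u.1 u.2 true i = (u.1 + 1, u.2 + i) := fun i => by simp [vb]
  refine ⟨by norm_num, hB, ?_, ?_, ?_, ?_, ?_, ?_⟩
  · intro j
    constructor
    · intro hj
      refine ⟨(hB _ hj).2, ?_⟩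
      by_contra hlt
      apply h1
      exact hrect u.1 (u.1 + 2) u.2 j u.1 (u.2 + 3) hj
        (hsub (by have := mem_blk u 2 0 (by norm_num) (by norm_num) (by norm_num) (by norm_num)
                  rwa [add_zero] at this)) le_rfl (by omega) (by omega) (by omega)
    · rintro ⟨h2, h3⟩
      apply hsub
      simp only [blk, Set.mem_ofPred_eq]
      omega
  · intro j h2 h3
    apply hsub
    simp only [blk, Set.mem_ofPred_eq]
    omega
  · intro i hi hi2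
    rw [hva, hvb, hva, hvb, hWv 0 i (by norm_num) (by norm_num) hi (by omega),
      hWv 1 i (by norm_num) (by norm_num) hi (by omega),
      hWv 0 2 (by norm_num) (by norm_num) (by norm_num) (by norm_num),
      hWv 1 2 (by norm_num) (by norm_num) (by norm_num) (by norm_num)]
    have : i = 0 ∨ i = 1 := by omega
    rcases this with rfl | rfl <;> norm_num
  · intro i j hi hij hj
    obtain rfl : i = 0 := by omega
    obtain rfl : j = 1 := by omega
    rw [hva, hvb, hva, hvb, hWv 0 0 (by norm_num) (by norm_num) (by norm_num) (by norm_num),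
      hWv 1 0 (by norm_num) (by norm_num) (by norm_num) (by norm_num),
      hWv 0 1 (by norm_num) (by norm_num) (by norm_num) (by norm_num),
      hWv 1 1 (by norm_num) (by norm_num) (by norm_num) (by norm_num)]
    norm_num
  · intro R hR i hi hi2 hmem
    obtain rfl : i = 0 := by omega
    have hRb : R ∈ Mn (blk u) := by
      by_contra hn
      have := hnew R hR hn _ hmem
      rw [hva] at this
      simp only at this
      omega
    refine ⟨1, by norm_num, by norm_num, ?_⟩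
    obtain ⟨a, b, c, d, rfl, hac, hbd⟩ := mn_blk' u R hRb
    rw [hva, ld_rc u W hW a b c d (by omega) (by omega) (by omega) (by omega) (by omega)
      (by omega)] at hmem
    have hv : a = 0 ∧ b = 0 ∧ c = 1 ∧ d = 1 := by
      split_ifs at hmem <;> rw [mem_pair] at hmem <;> omega
    obtain ⟨rfl, rfl, rfl, rfl⟩ := hv
    simp [rc]
  · intro R hR i hi hi2 hmem
    obtain rfl : i = 0 := by omega
    have hRb : R ∈ Mn (blk u) := by
      by_contra hn
      have := hnew R hR hn _ hmem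
      rw [hvb] at this
      simp only at this
      omega
    right
    obtain ⟨a, b, c, d, rfl, hac, hbd⟩ := mn_blk' u R hRb
    rw [hvb, ld_rc u W hW a b c d (by omega) (by omega) (by omega) (by omega) (by omega)
      (by omega)] at hmem
    have hv : a = 0 ∧ b = 0 ∧ c = 1 ∧ d = 2 := by
      split_ifs at hmem <;> rw [mem_pair] at hmem <;> omega
    obtain ⟨rfl, rfl, rfl, rfl⟩ := hv
    simp [rc]

/-! ### The square -/

/-- The weight on the unit square: the indicator of the middle level. -/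
noncomputable def sqrW (u : Pt) : Pt → ℝ := fun x => if x.1 + x.2 = u.1 + u.2 + 1 then 1 else 0

theorem sqrW_eq (u : Pt) (a b : ℤ) :
    sqrW u (u.1 + a, u.2 + b) = if a + b = 1 then 1 else 0 := by
  unfold sqrW
  simp only
  by_cases h : a + b = 1
  · rw [if_pos (by omega), if_pos h]
  · rw [if_neg (by omega), if_neg h]

theorem mn_sqr (u : Pt) (R : Pt × Pt) (hR : R ∈ Mn (sqr u)) : R = rc u 0 0 1 1 := by
  obtain ⟨⟨a, b⟩, ⟨c, d⟩⟩ := R
  obtain ⟨h1, h2, h3, h4⟩ := hR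
  simp only [sqr, Set.mem_ofPred_eq] at h1 h2 h3 h4
  simp only [rc, Prod.mk.injEq]
  omega

theorem ld_sqr (u : Pt) : ld (sqrW u) (rc u 0 0 1 1) = {(u.1 + 0, u.2 + 1), (u.1 + 1, u.2 + 0)} := by
  unfold ld IsD rc
  simp only [sqrW_eq]
  norm_num

theorem tot_sqr (u : Pt) : Tot (sqr u) (sqrW u) := by
  refine ⟨fun R hR => ?_, fun E E' hE hE' _ _ h => ?_⟩
  · rw [mn_sqr u R hR]
    unfold rc
    simp only [sqrW_eq]
    norm_num
  · have hr : Function.Injective (fun _ : Fin 1 => rc u 0 0 1 1) :=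
      fun a b _ => Subsingleton.elim a b
    have e : ∀ E : Multiset (Pt × Pt), (∀ R ∈ E, R ∈ Mn (sqr u)) →
        Multiset.count (u.1 + 0, u.2 + 1) (nu (sqrW u) E) = Multiset.count (rc u 0 0 1 1) E := by
      intro E hE
      rw [count_nu (sqrW u) E (fun _ : Fin 1 => rc u 0 0 1 1) hr
        (fun R hR => ⟨0, (mn_sqr u R (hE R hR)).symm⟩)]
      rw [Fin.sum_univ_one, ld_sqr, count_pair]
      norm_num
    refine ext_of_count E E' (fun _ : Fin 1 => rc u 0 0 1 1)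
      (fun R hR => ⟨0, (mn_sqr u R (hE R hR)).symm⟩)
      (fun R hR => ⟨0, (mn_sqr u R (hE' R hR)).symm⟩) fun k => ?_
    rw [← e E hE, ← e E' hE', h]

theorem stF_sqr (u : Pt) : StF (sqr u) (sqrW u) u.1 u.2 1 true := by
  have hva : ∀ i, va u.1 u.2 true i = (u.1 + 0, u.2 + i) := fun i => by simp [va]
  have hvb : ∀ i, vb u.1 u.2 true i = (u.1 + 1, u.2 + i) := fun i => by simp [vb]
  refine ⟨by norm_num, ?_, ?_, ?_, ?_, ?_, ?_, ?_⟩
  · intro x hx
    exact ⟨hx.1, hx.2.2.1⟩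
  · intro j
    simp only [sqr, Set.mem_ofPred_eq]
    omega
  · intro j
    simp only [sqr, Set.mem_ofPred_eq]
    omega
  · intro i hi hi2
    obtain rfl : i = 0 := by omega
    rw [hva, hvb, hva, hvb, sqrW_eq, sqrW_eq, sqrW_eq, sqrW_eq]
    norm_num
  · intro i j hi hij hj
    omega
  · intro R hR i hi hi2
    omega
  · intro R hR i hi hi2
    omega

end Pool.Agent.Helper28.JM
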