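import Pool.Agent.Helper26.SAMain
import Pool.Agent.Helper93.QuotBAMain
import Pool.Agent.Helper52.MA.Defs2

/-!
# Comparison of the two ways to define cardinal sequences and property (P)
-/

set_option autoImplicit false

open Cardinal Ordinal

namespace Pool.Agent.Helper26.SA

open Pool.Agent.Helper93

variable {B : Type} [BooleanAlgebra B]

/-- The ideal `J` as a set of elements of `B`. -/
def idl (J : Ideal (AsBoolRing B)) : Set B := {b | toBoolRing b ∈ J}

lemma quotMk_eq_iff (J : Ideal (AsBoolRing B)) (a b : B) :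
    QuotBA.quotMk J a = QuotBA.quotMk J b ↔ symmDiff a b ∈ idl J := by
  unfold QuotBA.quotMk idl
  rw [toBoolAlg_inj, Ideal.Quotient.eq, BooleanRing.sub_eq_add]
  rfl

lemma quotMk_surjective (J : Ideal (AsBoolRing B)) : Function.Surjective (QuotBA.quotMk J) := by
  intro c
  obtain ⟨x, hx⟩ := Ideal.Quotient.mk_surjective (I := J) (ofBoolAlg c)
  exact ⟨ofBoolRing x, by unfold QuotBA.quotMk; rw [toBoolRing_ofBoolRing, hx]; rfl⟩

lemma quotMk_bot (J : Ideal (AsBoolRing B)) : QuotBA.quotMk J (⊥ : B) = ⊥ := by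
  unfold QuotBA.quotMk
  rw [toBoolRing_bot, map_zero, toBoolAlg_zero]

lemma quotMk_inf (J : Ideal (AsBoolRing B)) (a b : B) :
    QuotBA.quotMk J (a ⊓ b) = QuotBA.quotMk J a ⊓ QuotBA.quotMk J b := by
  unfold QuotBA.quotMk
  rw [toBoolRing_inf, map_mul, toBoolAlg_mul]

lemma quotMk_sup (J : Ideal (AsBoolRing B)) (a b : B) :
    QuotBA.quotMk J (a ⊔ b) = QuotBA.quotMk J a ⊔ QuotBA.quotMk J b := by
  unfold QuotBA.quotMk
  have h : toBoolRing (a ⊔ b) = toBoolRing a + toBoolRing b + toBoolRing a * toBoolRing b := by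
    rw [← toBoolRing_symmDiff, ← toBoolRing_inf, ← toBoolRing_symmDiff, symmDiff_symmDiff_inf]
  rw [h, RingHom.map_add, RingHom.map_add, RingHom.map_mul, toBoolAlg_add_add_mul]

lemma quotMk_finset_sup (J : Ideal (AsBoolRing B)) {ι : Type} (s : Finset ι) (f : ι → B) :
    QuotBA.quotMk J (s.sup f) = s.sup fun i => QuotBA.quotMk J (f i) := by
  classical
  induction s using Finset.induction_on with
  | empty => simpa using quotMk_bot J
  | insert i s hi ih => rw [Finset.sup_insert, Finset.sup_insert, quotMk_sup, ih]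

lemma mem_idl_iff (J : Ideal (AsBoolRing B)) (b : B) :
    b ∈ idl J ↔ QuotBA.quotMk J b = ⊥ := by
  rw [← quotMk_bot J, quotMk_eq_iff]
  simp

lemma isAtom_quotMk_iff (J : Ideal (AsBoolRing B)) (p : B) :
    IsAtom (QuotBA.quotMk J p) ↔ AtomMod (idl J) p := by
  constructor
  · rintro ⟨h1, h2⟩
    refine ⟨fun h => h1 ((mem_idl_iff J p).1 h), fun c hc => ?_⟩
    by_cases h : QuotBA.quotMk J c = QuotBA.quotMk J p
    · right
      rw [quotMk_eq_iff, symmDiff_of_le hc] at h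
      exact h
    · left
      rw [mem_idl_iff]
      apply h2
      refine lt_of_le_of_ne ?_ h
      rw [← inf_eq_left, ← quotMk_inf, inf_eq_left.2 hc]
  · rintro ⟨h1, h2⟩
    refine ⟨fun h => h1 ((mem_idl_iff J p).2 h), fun c hc => ?_⟩
    obtain ⟨c, rfl⟩ := quotMk_surjective J c
    have h3 : QuotBA.quotMk J (c ⊓ p) = QuotBA.quotMk J c := by
      rw [quotMk_inf]; exact inf_eq_left.2 hc.le
    rcases h2 (c ⊓ p) inf_le_right with h | h
    · rw [← h3]; exact (mem_idl_iff J _).1 h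
    · exfalso
      apply hc.ne
      rw [← h3, quotMk_eq_iff, symmDiff_of_le inf_le_right]
      exact h

lemma isFiniteJoinOfAtoms_iff (J : Ideal (AsBoolRing B)) (b : B) :
    QuotBA.IsFiniteJoinOfAtoms (QuotBA.quotMk J b) ↔ b ∈ derive (idl J) := by
  classical
  constructor
  · rintro ⟨s, hs, hb⟩
    choose g hg using quotMk_surjective J
    refine ⟨s.image g, ?_, ?_⟩
    · intro p hp
      obtain ⟨a, ha, rfl⟩ := Finset.mem_image.1 hp
      rw [← isAtom_quotMk_iff, hg]
      exact hs a ha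
    · rw [← quotMk_eq_iff, hb, quotMk_finset_sup, Finset.sup_image]
      refine Finset.sup_congr rfl fun a _ => ?_
      simp [hg]
  · rintro ⟨s, hs, hb⟩
    refine ⟨s.image (QuotBA.quotMk J), ?_, ?_⟩
    · intro p hp
      obtain ⟨a, ha, rfl⟩ := Finset.mem_image.1 hp
      exact (isAtom_quotMk_iff J a).2 (hs a ha)
    · rw [(quotMk_eq_iff J _ _).2 hb, quotMk_finset_sup, Finset.sup_image]
      rfl

lemma idl_cbIdeal (β : Ordinal.{0}) : idl (QuotBA.cbIdeal B β) = cbIdeal B β := by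
  induction β using Ordinal.limitRecOn with
  | zero =>
    rw [QuotBA.cbIdeal_zero, cbIdeal_zero]
    ext b
    rw [mem_idl_iff, Set.mem_singleton_iff, ← quotMk_bot, quotMk_eq_iff]
    rw [symmDiff_bot, ← toBoolRing_inj, toBoolRing_bot]
    exact Iff.rfl
  | add_one β ih =>
    rw [QuotBA.cbIdeal_succ, cbIdeal_succ, ← ih]
    ext b
    rw [← isFiniteJoinOfAtoms_iff]
    rfl
  | limit l hl ih =>
    rw [QuotBA.cbIdeal_limit hl, cbIdeal_limit l hl]
    have hne : Nonempty (Set.Iio l) := ⟨⟨0, hl.bot_lt⟩⟩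
    have hd : Directed (· ≤ ·) fun γ : Set.Iio l => QuotBA.cbIdeal B γ.1 := by
      have hm : ∀ γ γ' : Set.Iio l, γ.1 ≤ γ'.1 →
          QuotBA.cbIdeal B γ.1 ≤ QuotBA.cbIdeal B γ'.1 := by
        intro γ γ' h x hx
        have h1 : ofBoolRing x ∈ idl (QuotBA.cbIdeal B γ.1) := hx
        rw [ih γ.1 γ.2] at h1
        have h2 := cbIdeal_mono h h1
        rw [← ih γ'.1 γ'.2] at h2
        exact h2
      intro γ γ'
      rcases le_total γ.1 γ'.1 with h | h
      · exact ⟨γ', hm _ _ h, le_rfl⟩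
      · exact ⟨γ, le_rfl, hm _ _ h⟩
    ext b
    have h1 : b ∈ idl (⨆ γ : Set.Iio l, QuotBA.cbIdeal B γ.1) ↔
        ∃ γ : Set.Iio l, b ∈ idl (QuotBA.cbIdeal B γ.1) :=
      Submodule.mem_iSup_of_directed _ hd
    rw [h1]
    constructor
    · rintro ⟨γ, hγ⟩
      rw [ih γ.1 γ.2] at hγ
      exact ⟨γ.1, γ.2, hγ⟩
    · rintro ⟨γ, hγ, hb⟩
      refine ⟨⟨γ, hγ⟩, ?_⟩
      rw [ih γ hγ]
      exact hb

lemma numAtoms_idl (J : Ideal (AsBoolRing B)) :
    numAtoms (idl J) = #{a : QuotBA.QuotAlg B J // IsAtom a} := by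
  unfold numAtoms
  refine mk_congr (Equiv.ofBijective (Quot.lift
    (fun p => (⟨QuotBA.quotMk J p.1, (isAtom_quotMk_iff J _).2 p.2⟩ :
      {a : QuotBA.QuotAlg B J // IsAtom a}))
    (fun p q h => Subtype.ext ((quotMk_eq_iff J _ _).2 h))) ⟨?_, ?_⟩)
  · intro x y
    induction x using Quot.ind with | _ x
    induction y using Quot.ind with | _ y
    intro h
    exact Quot.sound ((quotMk_eq_iff J _ _).1 (Subtype.ext_iff.1 h))
  · rintro ⟨a, ha⟩
    obtain ⟨p, rfl⟩ := quotMk_surjective J a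
    exact ⟨Quot.mk _ ⟨p, (isAtom_quotMk_iff J _).1 ha⟩, rfl⟩

lemma finiteMod_idl (J : Ideal (AsBoolRing B)) :
    FiniteMod (idl J) ↔ Finite (QuotBA.QuotAlg B J) := by
  unfold FiniteMod
  refine Equiv.finite_iff (Equiv.ofBijective (Quot.lift (QuotBA.quotMk J)
    (fun p q h => (quotMk_eq_iff J _ _).2 h)) ⟨?_, ?_⟩)
  · intro x y
    induction x using Quot.ind with | _ x
    induction y using Quot.ind with | _ y
    intro h
    exact Quot.sound ((quotMk_eq_iff J _ _).1 h)
  · intro a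
    obtain ⟨p, rfl⟩ := quotMk_surjective J a
    exact ⟨Quot.mk _ p, rfl⟩

theorem hasCardSeq_of {κ : Cardinal.{0}} {δ : Ordinal.{0}}
    (h : QuotBA.HasCardinalSequence B κ δ) : HasCardSeq B κ δ := by
  obtain ⟨⟨β, h1⟩, h2, h3, h4⟩ := h
  refine ⟨⟨β, ?_⟩, ?_, ?_, ?_, ?_⟩
  · rw [← idl_cbIdeal, h1]
    exact Set.eq_univ_of_forall fun b => (Submodule.mem_top : toBoolRing b ∈ (⊤ : Ideal (AsBoolRing B)))
  · rw [← idl_cbIdeal, finiteMod_idl]
    exact h2.1
  · intro γ hγ hf
    rw [← idl_cbIdeal, finiteMod_idl] at hf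
    exact absurd (h2.2 hf) (not_le.2 hγ)
  · intro γ hγ
    rw [← idl_cbIdeal, numAtoms_idl]
    exact h3 γ hγ
  · rw [← idl_cbIdeal, numAtoms_idl]
    exact h4

theorem propertyP_of (h : QuotBA.PropertyP B) : PropertyP B := by
  intro C _ f hf hC
  let J : Ideal (AsBoolRing B) := {
    carrier := {b | f (ofBoolRing b) = ⊥}
    zero_mem' := by
      show f (ofBoolRing (0 : AsBoolRing B)) = ⊥
      rw [ofBoolRing_zero, map_bot]
    add_mem' := by
      intro a b ha hb
      show f (ofBoolRing (a + b)) = ⊥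
      have ha' : f (ofBoolRing a) = ⊥ := ha
      have hb' : f (ofBoolRing b) = ⊥ := hb
      rw [ofBoolRing_add, map_symmDiff', ha', hb', symmDiff_self]
    smul_mem' := by
      intro a b hb
      show f (ofBoolRing (a * b)) = ⊥
      have hb' : f (ofBoolRing b) = ⊥ := hb
      rw [ofBoolRing_mul, map_inf, hb', inf_bot_eq] }
  have hJ : ∀ b, b ∈ idl J ↔ f b = ⊥ := fun b => Iff.rfl
  have hle : ∀ a b : B, QuotBA.quotMk J a ≤ QuotBA.quotMk J b ↔ f a ≤ f b := by
    intro a b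
    rw [← inf_eq_left, ← quotMk_inf, quotMk_eq_iff, hJ, map_symmDiff', symmDiff_eq_bot, map_inf,
      inf_eq_left]
  have hex : ∀ c : QuotBA.QuotAlg B J, ∃ b, QuotBA.quotMk J b = c := quotMk_surjective J
  choose g hg using hex
  have hsurj : Function.Surjective fun c : QuotBA.QuotAlg B J => f (g c) := by
    intro y
    obtain ⟨b, rfl⟩ := hf y
    refine ⟨QuotBA.quotMk J b, le_antisymm ?_ ?_⟩
    · exact (hle _ _).1 (hg _).le
    · exact (hle _ _).1 (hg _).ge
  let e : QuotBA.QuotAlg B J ≃o C :=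
    { Equiv.ofBijective (fun c : QuotBA.QuotAlg B J => f (g c)) ⟨by
        intro c d hcd
        have hcd' : f (g c) = f (g d) := hcd
        apply le_antisymm
        · rw [← hg c, ← hg d, hle, hcd']
        · rw [← hg c, ← hg d, hle, hcd'], hsurj⟩ with
      map_rel_iff' := by
        intro c d
        show f (g c) ≤ f (g d) ↔ c ≤ d
        rw [← hle, hg, hg] }
  have hu : Uncountable (QuotBA.QuotAlg B J) := by
    rw [← not_countable_iff]
    intro hcnt
    exact hC.not_countable hsurj.countable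
  obtain ⟨e'⟩ := h J hu
  exact ⟨e'.symm.trans e⟩

/-- Under Martin's Axiom for `ℵ₁` dense sets there is no algebra of length `δ`, `1 < δ < ω₁`. -/
theorem no_algebra_of_MA1 (h : Pool.Agent.Helper52.MA.MA1) {δ : Ordinal.{0}} (h1 : 1 < δ)
    (h2 : δ < ω₁) : ¬ ∃ (B : Type) (_ : BooleanAlgebra B),
      QuotBA.PropertyP B ∧ QuotBA.HasCardinalSequence B ℵ₁ δ := by
  rintro ⟨B, _, hP, hB⟩
  exact main h h1 h2 (propertyP_of hP) (hasCardSeq_of hB)

end Pool.Agent.Helper26.SA
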