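import Pool.Agent.Helper26.SACount

set_option autoImplicit false

open Cardinal Ordinal

namespace Pool.Agent.Helper26.SA

variable {B : Type} [BooleanAlgebra B]

/-- `b` meets every `a i`, `i ∈ C`. -/
def Meets {ι : Type} (a : ι → Finset B) (b : B) (C : Set ι) : Prop := ∀ i ∈ C, ∃ x ∈ a i, x ≤ b

lemma Meets.mono_set {ι : Type} {a : ι → Finset B} {b : B} {C D : Set ι} (h : Meets a b D)
    (hCD : C ⊆ D) : Meets a b C := fun i hi => h i (hCD hi)

/-- every uncountable `J` has a countable subset not met by an element of `I`. -/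
def Good {ι : Type} (a : ι → Finset B) (I : Set B) : Prop :=
  ∀ J : Set ι, ¬ J.Countable → ∃ C ⊆ J, C.Countable ∧ ∀ b ∈ I, ¬ Meets a b C

lemma atom_le_sdiff {x b c : B} (hx : IsAtom x) (hb : x ≤ b) (hc : ¬ x ≤ c) : x ≤ b \ c := by
  rw [le_sdiff]
  exact ⟨hb, hx.not_le_iff_disjoint.1 hc⟩

lemma good_iUnion {ι : Type} {a : ι → Finset B} (I : ℕ → Set B) (h : ∀ n, Good a (I n)) :
    Good a (⋃ n, I n) := by
  intro J hJ
  choose C hC hCc hCb using fun n => h n J hJ
  refine ⟨⋃ n, C n, Set.iUnion_subset hC, Set.countable_iUnion hCc, ?_⟩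
  intro b hb hm
  obtain ⟨n, hn⟩ := Set.mem_iUnion.1 hb
  exact hCb n b hn (hm.mono_set (Set.subset_iUnion C n))

lemma good_len {ι : Type} {a : ι → Finset B} {n : ℕ} {I : Set B} (hI : IsIdeal I)
    (hatom : ∀ i, ∀ x ∈ a i, IsAtom x) (hcard : ∀ i, (a i).card ≤ n)
    (hpc : ∀ x, {i | x ∈ a i}.Countable)
    (hbel : ∀ b ∈ derive I, {x : B | IsAtom x ∧ x ≤ b}.Countable)
    (hgood : Good a I) (k : ℕ) : Good a {b | Len I k b} := by
  classical
  induction k with
  | zero =>
    intro J hJ
    obtain ⟨C, hC, hCc, hCb⟩ := hgood J hJ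
    exact ⟨C, hC, hCc, fun b hb => hCb b ((len_zero hI).1 hb)⟩
  | succ k ih =>
    intro J hJ
    by_contra hcon
    push Not at hcon
    obtain ⟨C₀, hC₀, hC₀c, hC₀b⟩ := hgood J hJ
    have key : ∀ m : ℕ, ∃ b : Fin m → B, (∀ j, Len I (k + 1) (b j) ∧ Meets a (b j) C₀) ∧
        ∀ j j', j ≠ j' → b j ⊓ b j' ∈ I := by
      intro m
      induction m with
      | zero => exact ⟨Fin.elim0, fun j => j.elim0, fun j => j.elim0⟩
      | succ m ihm =>
        obtain ⟨b, hb, hbb⟩ := ihm
        set c : B := Finset.univ.sup b with hc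
        have hcI : c ∈ derive I := by
          rw [hc]
          refine hI.derive.finset_sup _ _ (fun j _ => ?_)
          exact mem_derive_of_len hI (k + 1) _ (hb j).1
        set J' : Set ι := {i ∈ J | ∀ x ∈ a i, ¬ x ≤ c} with hJ'
        have hJ'u : ¬ J'.Countable := by
          intro hcount
          apply hJ
          have h1 : J ⊆ J' ∪ ⋃ x ∈ {x : B | IsAtom x ∧ x ≤ c}, {i | x ∈ a i} := by
            intro i hi
            by_cases h : ∀ x ∈ a i, ¬ x ≤ c
            · exact Or.inl ⟨hi, h⟩
            · push Not at h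
              obtain ⟨x, hx, hxc⟩ := h
              right
              simp only [Set.mem_iUnion]
              exact ⟨x, ⟨hatom i x hx, hxc⟩, hx⟩
          refine Set.Countable.mono h1 (hcount.union ?_)
          exact (hbel c hcI).biUnion (fun x _ => hpc x)
        obtain ⟨C', hC', hC'c, hC'b⟩ := ih J' hJ'u
        obtain ⟨d, hd, hdm⟩ := hcon (C₀ ∪ C') (Set.union_subset hC₀ (hC'.trans fun i hi => hi.1))
          (hC₀c.union hC'c)
        have h2 : ¬ Len I k (d \ c) := by
          intro hlen
          refine hC'b _ hlen ?_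
          intro i hi
          obtain ⟨x, hx, hxd⟩ := hdm i (Or.inr hi)
          exact ⟨x, hx, atom_le_sdiff (hatom i x hx) hxd ((hC' hi).2 x hx)⟩
        have h3 : d ⊓ c ∈ I := by
          by_contra h
          exact h2 (Len.step hd h)
        have h4 : ∀ j, d ⊓ b j ∈ I := fun j =>
          hI.down _ h3 _ (inf_le_inf_left _ (Finset.le_sup (f := b) (Finset.mem_univ j)))
        refine ⟨Fin.cons d b, ?_, ?_⟩
        · intro j
          refine Fin.cases ?_ ?_ j
          · exact ⟨hd, hdm.mono_set Set.subset_union_left⟩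
          · intro j
            simpa using hb j
        · intro i j
          refine Fin.cases ?_ ?_ i
          · refine Fin.cases ?_ ?_ j
            · intro h; exact absurd rfl h
            · intro j _
              simpa using h4 j
          · intro i
            refine Fin.cases ?_ ?_ j
            · intro _
              have := h4 i
              rw [inf_comm] at this
              simpa using this
            · intro j hij
              simpa using hbb i j (fun h => hij (by rw [h]))
    obtain ⟨b, hb, hbb⟩ := key (n + 1)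
    set e : B := (Finset.univ : Finset (Fin (n + 1) × Fin (n + 1))).sup
      (fun p => if p.1 = p.2 then ⊥ else b p.1 ⊓ b p.2) with he
    have heI : e ∈ I := by
      refine hI.finset_sup _ _ (fun p _ => ?_)
      split_ifs with h
      · exact hI.bot
      · exact hbb _ _ h
    refine hC₀b e heI ?_
    intro i hi
    have h1 : ∀ j, ∃ x ∈ a i, x ≤ b j := fun j => (hb j).2 i hi
    choose x hx hxb using h1
    obtain ⟨j, -, j', -, hjj, hxx⟩ := Finset.exists_ne_map_eq_of_card_lt_of_maps_to
      (s := (Finset.univ : Finset (Fin (n + 1)))) (t := a i)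
      (by simpa using Nat.lt_succ_of_le (hcard i)) (f := x) (fun j _ => hx j)
    refine ⟨x j, hx j, ?_⟩
    have h2 : x j ≤ b j ⊓ b j' := le_inf (hxb j) (by rw [hxx]; exact hxb j')
    refine h2.trans ?_
    have h3 := Finset.le_sup (f := fun p : Fin (n + 1) × Fin (n + 1) =>
      if p.1 = p.2 then ⊥ else b p.1 ⊓ b p.2) (Finset.mem_univ (j, j'))
    simpa [hjj] using h3

lemma good_cbIdeal {ι : Type} {a : ι → Finset B} {n : ℕ} {δ : Ordinal.{0}} (hδ : δ < ω₁)
    (hatom : ∀ i, ∀ x ∈ a i, IsAtom x) (hcard : ∀ i, (a i).card ≤ n)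
    (hpc : ∀ x, {i | x ∈ a i}.Countable)
    (hbel : ∀ b ∈ cbIdeal B δ, {x : B | IsAtom x ∧ x ≤ b}.Countable) :
    ∀ β ≤ δ, Good a (cbIdeal B β) := by
  intro β
  induction β using Ordinal.limitRecOn with
  | zero =>
    intro _ J hJ
    have hne : J.Nonempty := by
      rw [Set.nonempty_iff_ne_empty]
      rintro rfl
      exact hJ Set.countable_empty
    obtain ⟨i, hi⟩ := hne
    refine ⟨{i}, by simpa using hi, Set.countable_singleton i, ?_⟩
    intro b hb hm
    rw [cbIdeal_zero, Set.mem_singleton_iff] at hb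
    obtain ⟨x, hx, hxb⟩ := hm i rfl
    rw [hb] at hxb
    exact (hatom i x hx).1 (le_bot_iff.1 hxb)
  | add_one β ih =>
    intro hβ
    have hlt : β < δ := Order.add_one_le_iff.1 hβ
    have hI := cbIdeal_isIdeal (B := B) β
    have h1 : cbIdeal B (β + 1) = ⋃ k, {b | Len (cbIdeal B β) k b} := by
      rw [cbIdeal_succ]
      ext b
      rw [mem_derive_iff hI]
      simp
    rw [h1]
    refine good_iUnion _ (fun k => good_len hI hatom hcard hpc ?_ (ih hlt.le) k)
    intro b hb
    refine hbel b (cbIdeal_mono hβ ?_)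
    rw [cbIdeal_succ]
    exact hb
  | limit β hβ ih =>
    intro hle
    obtain ⟨f, hf⟩ := (countable_Iio (hle.trans_lt hδ)).exists_eq_range
      ⟨0, hβ.bot_lt⟩
    have hfβ : ∀ n, f n < β := fun n => by
      have : f n ∈ Set.Iio β := by rw [hf]; exact ⟨n, rfl⟩
      exact this
    have h1 : cbIdeal B β = ⋃ n : ℕ, cbIdeal B (f n) := by
      rw [cbIdeal_limit β hβ]
      ext b
      simp only [Set.mem_iUnion]
      constructor
      · rintro ⟨γ, hγ, hb⟩
        have : γ ∈ Set.range f := by rw [← hf]; exact hγ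
        obtain ⟨n, rfl⟩ := this
        exact ⟨n, hb⟩
      · rintro ⟨n, hb⟩
        exact ⟨f n, hfβ n, hb⟩
    rw [h1]
    exact good_iUnion _ (fun n => ih _ (hfβ n) ((hfβ n).le.trans hle))

end Pool.Agent.Helper26.SA
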