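import Pool.Agent.Helper26.SAIdeal

set_option autoImplicit false

open Cardinal Ordinal

namespace Pool.Agent.Helper26.SA

variable {B : Type} [BooleanAlgebra B]

lemma IsIdeal.equivalence {I : Set B} (hI : IsIdeal I) :
    Equivalence fun p q : B => symmDiff p q ∈ I where
  refl p := by simpa using hI.bot
  symm := by
    intro p q h
    rwa [symmDiff_comm]
  trans := by
    intro p q r h1 h2
    refine hI.down _ (hI.sup _ h1 _ h2) _ ?_
    exact symmDiff_triangle p q r

lemma symmDiff_sup_le (a b c d : B) :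
    symmDiff (a ⊔ b) (c ⊔ d) ≤ symmDiff a c ⊔ symmDiff b d := by
  simp only [symmDiff_def]
  refine sup_le ?_ ?_
  · rw [sup_sdiff]
    refine sup_le ?_ ?_
    · exact (sdiff_le_sdiff_left le_sup_left).trans (le_sup_left.trans le_sup_left)
    · exact (sdiff_le_sdiff_left le_sup_right).trans (le_sup_left.trans le_sup_right)
  · rw [sup_sdiff]
    refine sup_le ?_ ?_
    · exact (sdiff_le_sdiff_left le_sup_left).trans (le_sup_right.trans le_sup_left)
    · exact (sdiff_le_sdiff_left le_sup_right).trans (le_sup_right.trans le_sup_right)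

lemma card_derive_le {I : Set B} (hI : IsIdeal I) (h1 : numAtoms I ≤ ℵ₁) (h2 : #I ≤ ℵ₁) :
    #(derive I) ≤ ℵ₁ := by
  classical
  set r : {p : B // AtomMod I p} → {p : B // AtomMod I p} → Prop :=
    fun p q => symmDiff p.1 q.1 ∈ I with hr
  have hreq : Equivalence r := by
    refine ⟨fun p => hI.equivalence.refl _, fun h => hI.equivalence.symm h,
      fun h h' => hI.equivalence.trans h h'⟩
  have hQ : #(Quot r) ≤ ℵ₁ := h1
  set rep : Quot r → B := fun q => q.out.1 with hrep
  have hF : #(Finset (Quot r)) ≤ ℵ₁ := by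
    refine (mk_le_of_surjective (List.toFinset_surjective)).trans ?_
    refine (mk_list_le_max (Quot r)).trans ?_
    exact max_le (aleph0_le_aleph 1) hQ
  have hsurj : ∀ b ∈ derive I, ∃ t : Finset (Quot r), ∃ j ∈ I, b = symmDiff (t.sup rep) j := by
    rintro b ⟨s, hs, hs'⟩
    have key : ∀ s : Finset B, (∀ p ∈ s, AtomMod I p) → ∃ t : Finset (Quot r),
        symmDiff (s.sup id) (t.sup rep) ∈ I := by
      intro s
      induction s using Finset.induction_on with
      | empty => intro _; exact ⟨∅, by simpa using hI.bot⟩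
      | insert a s ha ih =>
        intro h
        obtain ⟨t, ht⟩ := ih (fun p hp => h p (Finset.mem_insert_of_mem hp))
        have ha' : AtomMod I a := h a (Finset.mem_insert_self _ _)
        refine ⟨insert (Quot.mk r ⟨a, ha'⟩) t, ?_⟩
        rw [Finset.sup_insert, Finset.sup_insert]
        refine hI.down _ (hI.sup _ ?_ _ ht) _ (symmDiff_sup_le _ _ _ _)
        have : r ⟨a, ha'⟩ (Quot.mk r ⟨a, ha'⟩).out := by
          rw [← hreq.quot_mk_eq_iff]
          exact (Quot.out_eq _).symm
        exact this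
    obtain ⟨t, ht⟩ := key s hs
    refine ⟨t, symmDiff (t.sup rep) b, ?_, ?_⟩
    · refine hI.equivalence.symm ?_
      exact hI.equivalence.trans hs' ht
    · rw [symmDiff_symmDiff_cancel_left]
  have hle : #(derive I) ≤ #(Finset (Quot r) × I) := by
    refine mk_le_of_surjective (α := {x : Finset (Quot r) × I //
      symmDiff (x.1.sup rep) x.2.1 ∈ derive I})
      (f := fun x => (⟨_, x.2⟩ : derive I)) ?_ |>.trans ?_
    · rintro ⟨b, hb⟩
      obtain ⟨t, j, hj, h⟩ := hsurj b hb
      exact ⟨⟨(t, ⟨j, hj⟩), by rw [← h]; exact hb⟩, by simp [← h]⟩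
    · exact mk_subtype_le _
  refine hle.trans ?_
  rw [mk_prod, Cardinal.lift_id, Cardinal.lift_id]
  exact (mul_le_mul' hF h2).trans (mul_eq_self (aleph0_le_aleph 1)).le

lemma countable_Iio {β : Ordinal.{0}} (h : β < ω₁) : (Set.Iio β).Countable := by
  have h1 : β.card ≤ ℵ₀ := by
    rwa [card_le_iff, succ_aleph0, ord_aleph]
  rw [← Set.countable_coe_iff, ← mk_le_aleph0_iff, Cardinal.mk_Iio_ordinal,
    ← lift_aleph0.{1, 0}, Cardinal.lift_le]
  exact h1

lemma card_cbIdeal_le {δ : Ordinal.{0}} (hδ : δ < ω₁)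
    (h : ∀ β < δ, numAtoms (cbIdeal B β) ≤ ℵ₁) : ∀ β ≤ δ, #(cbIdeal B β) ≤ ℵ₁ := by
  intro β
  induction β using Ordinal.limitRecOn with
  | zero =>
    intro _
    rw [cbIdeal_zero, mk_singleton]
    exact one_lt_aleph0.le.trans (aleph0_le_aleph 1)
  | add_one β ih =>
    intro hβ
    rw [cbIdeal_succ]
    have hlt : β < δ := Order.add_one_le_iff.1 hβ
    exact card_derive_le (cbIdeal_isIdeal β) (h β hlt) (ih hlt.le)
  | limit β hβ ih =>
    intro hle
    obtain ⟨f, hf⟩ := (countable_Iio (hle.trans_lt hδ)).exists_eq_range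
      ⟨0, hβ.bot_lt⟩
    have hfβ : ∀ n, f n < β := fun n => by
      have : f n ∈ Set.Iio β := by rw [hf]; exact ⟨n, rfl⟩
      exact this
    have h1 : cbIdeal B β = ⋃ n : ℕ, cbIdeal B (f n) := by
      rw [cbIdeal_limit β hβ]
      ext b
      simp only [Set.mem_iUnion]
      constructor
      · rintro ⟨γ, hγ, hb⟩
        have : γ ∈ Set.range f := by rw [← hf]; exact hγ
        obtain ⟨n, rfl⟩ := this
        exact ⟨n, hb⟩
      · rintro ⟨n, hb⟩
        exact ⟨f n, hfβ n, hb⟩
    rw [h1]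
    refine (mk_iUnion_le _).trans ?_
    rw [mk_nat]
    have h2 : ⨆ n, #(cbIdeal B (f n)) ≤ ℵ₁ := ciSup_le' fun n => ih _ (hfβ n)
      ((hfβ n).le.trans hle)
    exact (mul_le_mul' (aleph0_le_aleph 1) h2).trans (mul_eq_self (aleph0_le_aleph 1)).le

end Pool.Agent.Helper26.SA
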