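import Mathlib

/-!
# Superatomic Boolean algebras: definitions

Cantor-Bendixson ideals, cardinal sequences, property (P), Martin's Axiom for `ℵ₁` dense sets.
-/

set_option autoImplicit false

open Cardinal Ordinal

namespace Pool.Agent.Helper26.SA

/-- Property (P): every uncountable homomorphic image (equivalently, every uncountable quotient
`B / J` by an ideal `J`) of `B` is isomorphic to `B`. -/
def PropertyP (B : Type) [BooleanAlgebra B] : Prop :=
  ∀ (C : Type) [BooleanAlgebra C] (f : BoundedLatticeHom B C), Function.Surjective f →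
    Uncountable C → Nonempty (B ≃o C)

variable {B : Type} [BooleanAlgebra B]

/-- The class of `p` is an atom of `B / I`. -/
def AtomMod (I : Set B) (p : B) : Prop :=
  p ∉ I ∧ ∀ c ≤ p, c ∈ I ∨ p \ c ∈ I

/-- The set of all `b` whose class in `B / I` is a finite join of atoms of `B / I`. -/
def derive (I : Set B) : Set B :=
  {b | ∃ s : Finset B, (∀ p ∈ s, AtomMod I p) ∧ symmDiff b (s.sup id) ∈ I}

/-- The Cantor-Bendixson ideals: `I_0 = {0}`, `I_{β+1} = derive I_β`, unions at limits. -/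
noncomputable def cbIdeal (B : Type) [BooleanAlgebra B] (β : Ordinal.{0}) : Set B :=
  Ordinal.limitRecOn (motive := fun _ => Set B) β {⊥} (fun _ I => derive I)
    (fun β _ I => {b | ∃ γ, ∃ h : γ < β, b ∈ I γ h})

/-- The number of atoms of `B / I`. -/
noncomputable def numAtoms (I : Set B) : Cardinal.{0} :=
  #(Quot fun p q : {p : B // AtomMod I p} => symmDiff p.1 q.1 ∈ I)

/-- `B / I` is finite. -/
def FiniteMod (I : Set B) : Prop :=
  Finite (Quot fun a b : B => symmDiff a b ∈ I)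

/-- `B` is superatomic with cardinal sequence `⟨κ, κ, …, 1⟩` of length `δ`: the height (the least
`ρ` with `B / I_ρ` finite) is `δ`, `B / I_β` has `κ` atoms for `β < δ` and `B / I_δ` has one. -/
structure HasCardSeq (B : Type) [BooleanAlgebra B] (κ : Cardinal.{0}) (δ : Ordinal.{0}) :
    Prop where
  superatomic : ∃ β, cbIdeal B β = Set.univ
  finite : FiniteMod (cbIdeal B δ)
  least : ∀ β < δ, ¬ FiniteMod (cbIdeal B β)
  level : ∀ β < δ, numAtoms (cbIdeal B β) = κ
  top : numAtoms (cbIdeal B δ) = 1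

/-- The countable chain condition. -/
def CCC (P : Type) [Preorder P] : Prop :=
  ∀ A : Set P, (∀ p ∈ A, ∀ q ∈ A, p ≠ q → ¬ ∃ r, r ≤ p ∧ r ≤ q) → A.Countable

/-- Martin's Axiom for `ℵ₁` dense sets. -/
def MartinAxiomAlephOne : Prop :=
  ∀ (P : Type) [Preorder P] [Nonempty P], CCC P →
    ∀ (ι : Type) (D : ι → Set P), #ι ≤ ℵ₁ → (∀ i p, ∃ q ∈ D i, q ≤ p) →
      ∃ G : Set P, G.Nonempty ∧ (∀ p ∈ G, ∀ q, p ≤ q → q ∈ G) ∧
        (∀ p ∈ G, ∀ q ∈ G, ∃ r ∈ G, r ≤ p ∧ r ≤ q) ∧ ∀ i, (G ∩ D i).Nonempty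

end Pool.Agent.Helper26.SA
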