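import Pool.Agent.Helper26.SAHom

set_option autoImplicit false

open Cardinal Ordinal

namespace Pool.Agent.Helper26.SA

variable {B : Type} [BooleanAlgebra B]

/-- conditions: a finite set of atoms and an element of the ideal. -/
structure Cond (I : Set B) where
  fin : Finset B
  el : B
  atom : ∀ x ∈ fin, IsAtom x
  mem : el ∈ I

instance (I : Set B) : Preorder (Cond I) where
  le q p := p.fin ⊆ q.fin ∧ p.el ≤ q.el ∧ ∀ x ∈ q.fin, x ∉ p.fin → ¬ x ≤ p.el
  le_refl p := ⟨Finset.Subset.refl _, le_rfl, fun x hx hx' => absurd hx hx'⟩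
  le_trans r q p := by
    rintro ⟨h1, h2, h3⟩ ⟨h4, h5, h6⟩
    refine ⟨h4.trans h1, h5.trans h2, fun x hx hxp hle => ?_⟩
    by_cases hxq : x ∈ q.fin
    · exact h6 x hxq hxp hle
    · exact h3 x hx hxq (hle.trans h5)

lemma Cond.le_def {I : Set B} {p q : Cond I} : q ≤ p ↔
    p.fin ⊆ q.fin ∧ p.el ≤ q.el ∧ ∀ x ∈ q.fin, x ∉ p.fin → ¬ x ≤ p.el := Iff.rfl

omit [BooleanAlgebra B] in
/-- weak Delta-system: an uncountable subfamily with root `r`, point-countable off `r`. -/
lemma exists_root {κ : Type} (F : κ → Finset B) (A : Set κ) (hA : ¬ A.Countable) (n : ℕ)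
    (hn : ∀ i ∈ A, (F i).card ≤ n) :
    ∃ r : Finset B, ¬ {i ∈ A | r ⊆ F i}.Countable ∧
      ∀ x ∉ r, {i ∈ A | r ⊆ F i ∧ x ∈ F i}.Countable := by
  classical
  set T : Set (Finset B) := {r | ¬ {i ∈ A | r ⊆ F i}.Countable} with hT
  have hne : T.Nonempty := ⟨∅, by
    show ¬ {i ∈ A | ∅ ⊆ F i}.Countable
    simpa using hA⟩
  obtain ⟨r, hr, hmin⟩ := WellFounded.has_min (measure fun r : Finset B => n - r.card).wf T hne
  refine ⟨r, hr, fun x hx => ?_⟩
  by_contra hcon
  have h1 : insert x r ∈ T := by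
    show ¬ {i ∈ A | insert x r ⊆ F i}.Countable
    intro h
    apply hcon
    refine h.mono ?_
    rintro i ⟨hi, hri, hxi⟩
    exact ⟨hi, Finset.insert_subset hxi hri⟩
  apply hmin _ h1
  show n - (insert x r).card < n - r.card
  have h2 : ∃ i ∈ A, insert x r ⊆ F i := by
    by_contra h
    push Not at h
    apply h1
    have : {i ∈ A | insert x r ⊆ F i} = ∅ := by
      ext i
      constructor
      · rintro ⟨hi, h'⟩
        exact absurd h' (h i hi)
      · intro h'
        exact absurd h' (by simp)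
    show {i ∈ A | insert x r ⊆ F i}.Countable
    rw [this]
    exact Set.countable_empty
  obtain ⟨i, hi, hsub⟩ := h2
  have h3 := (Finset.card_le_card hsub).trans (hn i hi)
  rw [Finset.card_insert_of_notMem hx] at h3 ⊢
  omega

lemma ccc_cond {δ : Ordinal.{0}} (hδ : δ < ω₁)
    (hbel : ∀ b ∈ cbIdeal B δ, {x : B | IsAtom x ∧ x ≤ b}.Countable) :
    CCC (Cond (cbIdeal B δ)) := by
  classical
  intro A hA
  by_contra hAu
  have hI := cbIdeal_isIdeal (B := B) δ
  -- bound the size of the finite parts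
  have h1 : ∃ n, ¬ {p ∈ A | p.fin.card ≤ n}.Countable := by
    by_contra h
    push Not at h
    apply hAu
    refine (Set.countable_iUnion h).mono ?_
    intro p hp
    exact Set.mem_iUnion.2 ⟨p.fin.card, hp, le_rfl⟩
  obtain ⟨n, hn⟩ := h1
  obtain ⟨r, hr, hpc⟩ := exists_root (fun p : Cond (cbIdeal B δ) => p.fin)
    {p ∈ A | p.fin.card ≤ n} hn n (fun p hp => hp.2)
  set J : Set (Cond (cbIdeal B δ)) := {i ∈ {p ∈ A | p.fin.card ≤ n} | r ⊆ i.fin} with hJ
  -- index type
  set a : J → Finset B := fun p => p.1.fin \ r with ha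
  have hpc' : ∀ x, {i : J | x ∈ a i}.Countable := by
    intro x
    by_cases hx : x ∈ r
    · have : {i : J | x ∈ a i} = ∅ := by
        ext i
        simp only [ha, Set.mem_ofPred_eq, Finset.mem_sdiff]
        constructor
        · intro h
          exact absurd hx h.2
        · intro h
          exact absurd h (by simp)
      rw [this]
      exact Set.countable_empty
    · refine ((hpc x hx).preimage (f := (Subtype.val : J → _)) Subtype.val_injective).mono ?_
      intro i hi
      exact ⟨i.2.1, i.2.2, (Finset.mem_sdiff.1 hi).1⟩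
  have hgood := good_cbIdeal (a := a) (n := n) hδ
    (fun i x hx => i.1.atom x (Finset.mem_sdiff.1 hx).1)
    (fun i => (Finset.card_le_card Finset.sdiff_subset).trans i.2.1.2)
    hpc' hbel δ le_rfl
  have huniv : ¬ (Set.univ : Set J).Countable := by
    intro h
    apply hr
    exact Set.countable_coe_iff.1 (Set.countable_univ_iff.1 h)
  obtain ⟨C, -, hCc, hCb⟩ := hgood Set.univ huniv
  -- the countably many `q` excluded
  set E : Set J := C ∪ ⋃ p ∈ C, ⋃ x ∈ {x : B | IsAtom x ∧ x ≤ p.1.el}, {i : J | x ∈ a i} with hE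
  have hEc : E.Countable := by
    refine hCc.union (hCc.biUnion fun p _ => ?_)
    exact (hbel _ p.1.mem).biUnion fun x _ => hpc' x
  obtain ⟨q, -, hq⟩ : ∃ q ∈ (Set.univ : Set J), q ∉ E := by
    by_contra h
    push Not at h
    exact huniv (hEc.mono h)
  refine hCb q.1.el q.1.mem ?_
  intro p hp
  have hqC : q ∉ C := fun h => hq (Or.inl h)
  have hne : p.1 ≠ q.1 := by
    intro h
    apply hqC
    rwa [← Subtype.ext h]
  by_contra hcon
  push Not at hcon
  apply hA p.1 p.2.1.1 q.1 q.2.1.1 hne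
  refine ⟨⟨p.1.fin ∪ q.1.fin, p.1.el ⊔ q.1.el, ?_, hI.sup _ p.1.mem _ q.1.mem⟩, ?_, ?_⟩
  · intro x hx
    rcases Finset.mem_union.1 hx with h | h
    · exact p.1.atom x h
    · exact q.1.atom x h
  · refine ⟨Finset.subset_union_left, le_sup_left, ?_⟩
    intro x hx hxp hle
    rcases Finset.mem_union.1 hx with h | h
    · exact hxp h
    · apply hq
      right
      simp only [Set.mem_iUnion]
      refine ⟨p, hp, x, ⟨q.1.atom x h, hle⟩, ?_⟩
      show x ∈ q.1.fin \ r
      rw [Finset.mem_sdiff]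
      exact ⟨h, fun hxr => hxp (p.2.2 hxr)⟩
  · refine ⟨Finset.subset_union_right, le_sup_right, ?_⟩
    intro x hx hxq hle
    rcases Finset.mem_union.1 hx with h | h
    · refine hcon x ?_ hle
      show x ∈ p.1.fin \ r
      rw [Finset.mem_sdiff]
      exact ⟨h, fun hxr => hxq (q.2.2 hxr)⟩
    · exact hxq h

lemma exists_fibres {S : Type} (hS : #S = ℵ₁) : ∃ π : S → S, ∀ i, ¬ {x | π x = i}.Countable := by
  have h1 : #(S × S) = #S := by
    rw [mk_prod, Cardinal.lift_id, hS]
    exact mul_eq_self (aleph0_le_aleph 1)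
  obtain ⟨e⟩ := Cardinal.eq.1 h1
  refine ⟨fun x => (e.symm x).1, fun i hc => ?_⟩
  have h2 : (Set.univ : Set S).Countable := by
    have h3 := hc.preimage (f := fun y : S => e (i, y)) (by
      intro y z hyz
      have := e.injective hyz
      simpa using this)
    convert h3 using 1
    ext y
    simp
  have h3 : Countable S := Set.countable_univ_iff.1 h2
  have h4 := mk_le_aleph0_iff.2 h3
  rw [hS] at h4
  exact absurd h4 (not_le.2 (aleph0_lt_aleph_one))

/-- Under `MA_ℵ₁` there is an uncountable set of atoms meeting every element of the ideal in a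
finite set. -/
lemma exists_thin (hMA : MartinAxiomAlephOne) {δ : Ordinal.{0}} (hδ : δ < ω₁)
    (hbel : ∀ b ∈ cbIdeal B δ, {x : B | IsAtom x ∧ x ≤ b}.Countable)
    (hI1 : #(cbIdeal B δ) ≤ ℵ₁) (hat : #{x : B // IsAtom x} = ℵ₁) :
    ∃ S : Set B, (∀ x ∈ S, IsAtom x) ∧ ¬ S.Countable ∧
      ∀ b ∈ cbIdeal B δ, {x ∈ S | x ≤ b}.Finite := by
  classical
  have hI := cbIdeal_isIdeal (B := B) δ
  obtain ⟨π, hπ⟩ := exists_fibres hat
  let D : cbIdeal B δ ⊕ {x : B // IsAtom x} → Set (Cond (cbIdeal B δ)) := fun i =>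
    match i with
    | Sum.inl b => {p | b.1 ≤ p.el}
    | Sum.inr y => {p | ∃ x : {x : B // IsAtom x}, x.1 ∈ p.fin ∧ π x = y}
  have hne : Nonempty (Cond (cbIdeal B δ)) := ⟨⟨∅, ⊥, by simp, hI.bot⟩⟩
  obtain ⟨G, hGne, hGup, hGdir, hGD⟩ := hMA (Cond (cbIdeal B δ)) (ccc_cond hδ hbel)
    (cbIdeal B δ ⊕ {x : B // IsAtom x}) D (by
      rw [mk_sum, Cardinal.lift_id, Cardinal.lift_id, hat]
      exact (add_le_add_left hI1 _).trans (add_eq_self (aleph0_le_aleph 1)).le) (by
      rintro (b | y) p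
      · refine ⟨⟨p.fin, p.el ⊔ b.1, p.atom, hI.sup _ p.mem _ b.2⟩, ?_, ?_⟩
        · show b.1 ≤ p.el ⊔ b.1
          exact le_sup_right
        · exact ⟨Finset.Subset.refl _, le_sup_left, fun x hx hx' => absurd hx hx'⟩
      · have h1 : ∃ x : {x : B // IsAtom x}, π x = y ∧ ¬ x.1 ≤ p.el := by
          by_contra h
          push Not at h
          apply hπ y
          refine ((hbel _ p.mem).preimage (f := (Subtype.val : {x : B // IsAtom x} → B))
            Subtype.val_injective).mono ?_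
          intro x hx
          exact ⟨x.2, h x hx⟩
        obtain ⟨x, hxy, hx⟩ := h1
        refine ⟨⟨insert x.1 p.fin, p.el, ?_, p.mem⟩, ?_, ?_⟩
        · intro z hz
          rcases Finset.mem_insert.1 hz with h | h
          · rw [h]
            exact x.2
          · exact p.atom z h
        · exact ⟨x, Finset.mem_insert_self _ _, hxy⟩
        · refine ⟨Finset.subset_insert _ _, le_rfl, fun z hz hz' => ?_⟩
          rcases Finset.mem_insert.1 hz with h | h
          · rw [h]
            exact hx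
          · exact absurd h hz')
  refine ⟨{x | ∃ p ∈ G, x ∈ p.fin}, ?_, ?_, ?_⟩
  · rintro x ⟨p, -, hx⟩
    exact p.atom x hx
  · intro hc
    have h1 : Countable {x : B // IsAtom x} := by
      have h2 := hc.preimage (f := (Subtype.val : {x : B // IsAtom x} → B))
            Subtype.val_injective
      have h3 := h2.image π
      rw [← Set.countable_univ_iff]
      refine h3.mono ?_
      intro y _
      obtain ⟨p, hpG, x, hx, hxy⟩ := hGD (Sum.inr y)
      exact ⟨x, ⟨p, hpG, hx⟩, hxy⟩
    have h4 := mk_le_aleph0_iff.2 h1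
    rw [hat] at h4
    exact absurd h4 (not_le.2 (aleph0_lt_aleph_one))
  · intro b hb
    obtain ⟨p, hpG, hp⟩ := hGD (Sum.inl ⟨b, hb⟩)
    refine (p.fin.finite_toSet).subset ?_
    rintro x ⟨⟨q, hqG, hx⟩, hxb⟩
    obtain ⟨r, hrG, hrp, hrq⟩ := hGdir p hpG q hqG
    by_contra hxp
    exact hrp.2.2 x (hrq.1 hx) hxp (hxb.trans hp)

end Pool.Agent.Helper26.SA
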