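import Pool.Agent.Helper26.SACore

set_option autoImplicit false

open Cardinal Ordinal

namespace Pool.Agent.Helper26.SA

variable {B : Type} [BooleanAlgebra B]

lemma atom_le_sup {x a b : B} (hx : IsAtom x) : x ≤ a ⊔ b ↔ x ≤ a ∨ x ≤ b := by
  constructor
  · intro h
    by_contra hcon
    push Not at hcon
    have h1 := hx.not_le_iff_disjoint.1 hcon.1
    have h2 := hx.not_le_iff_disjoint.1 hcon.2
    exact hx.1 (disjoint_self.1 ((h1.sup_right h2).mono_right h))
  · rintro (h | h)
    · exact h.trans le_sup_left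
    · exact h.trans le_sup_right

/-- The trace homomorphism on a set of atoms. -/
def traceHom (S : Set B) (hS : ∀ x ∈ S, IsAtom x) : BoundedLatticeHom B (Set S) where
  toFun b := {x | x.1 ≤ b}
  map_sup' a b := by
    ext x
    exact atom_le_sup (hS x.1 x.2)
  map_inf' a b := by
    ext x
    exact le_inf_iff
  map_top' := by
    ext x
    simp
  map_bot' := by
    ext x
    simp only [Set.mem_ofPred_eq]
    constructor
    · intro h
      exact absurd (le_bot_iff.1 h) (hS x.1 x.2).1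
    · intro h
      exact absurd h (by simp)

/-- The algebra of traces on `S`. -/
def TraceAlg (S : Set B) (hS : ∀ x ∈ S, IsAtom x) : Type :=
  BooleanSubalgebra.map (traceHom S hS) ⊤

instance (S : Set B) (hS : ∀ x ∈ S, IsAtom x) : BooleanAlgebra (TraceAlg S hS) :=
  inferInstanceAs (BooleanAlgebra (BooleanSubalgebra.map (traceHom S hS) ⊤))

/-- The trace map onto its range. -/
def toTrace (S : Set B) (hS : ∀ x ∈ S, IsAtom x) : BoundedLatticeHom B (TraceAlg S hS) where
  toFun b := ⟨traceHom S hS b, ⟨b, trivial, rfl⟩⟩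
  map_sup' a b := Subtype.ext (map_sup (traceHom S hS) a b)
  map_inf' a b := Subtype.ext (map_inf (traceHom S hS) a b)
  map_top' := Subtype.ext (map_top (traceHom S hS))
  map_bot' := Subtype.ext (map_bot (traceHom S hS))

lemma toTrace_surjective (S : Set B) (hS : ∀ x ∈ S, IsAtom x) :
    Function.Surjective (toTrace S hS) := by
  rintro ⟨c, b, -, rfl⟩
  exact ⟨b, rfl⟩

lemma toTrace_le_iff (S : Set B) (hS : ∀ x ∈ S, IsAtom x) {a b : B} :
    toTrace S hS a ≤ toTrace S hS b ↔ ∀ x ∈ S, x ≤ a → x ≤ b := by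
  constructor
  · intro h x hx hxa
    exact h (show (⟨x, hx⟩ : S) ∈ _ from hxa)
  · intro h x hx
    exact h x.1 x.2 hx

lemma toTrace_uncountable (S : Set B) (hS : ∀ x ∈ S, IsAtom x) (hu : ¬ S.Countable) :
    Uncountable (TraceAlg S hS) := by
  have : Uncountable S := by
    rw [← not_countable_iff]
    exact fun h => hu (Set.countable_coe_iff.1 h)
  refine Function.Injective.uncountable (f := fun x : S => toTrace S hS x.1) ?_
  intro x y hxy
  have h1 : toTrace S hS x.1 ≤ toTrace S hS y.1 := hxy.le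
  rw [toTrace_le_iff] at h1
  have h2 := h1 x.1 x.2 le_rfl
  have h3 := (hS y.1 y.2).le_iff.1 h2
  rcases h3 with h3 | h3
  · exact absurd h3 (hS x.1 x.2).1
  · exact Subtype.ext h3

/-- transfer of ideals through property (P). -/
lemma top_mem_of_trace {S : Set B} (hS : ∀ x ∈ S, IsAtom x) (hu : ¬ S.Countable)
    (hP : PropertyP B) {β : Ordinal.{0}} (h : ⊤ ∈ cbIdeal (TraceAlg S hS) β) :
    (⊤ : B) ∈ cbIdeal B β := by
  obtain ⟨e⟩ := hP (TraceAlg S hS) (toTrace S hS) (toTrace_surjective S hS)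
    (toTrace_uncountable S hS hu)
  let f : BoundedLatticeHom (TraceAlg S hS) B :=
    { toFun := e.symm
      map_sup' := fun a b => map_sup e.symm a b
      map_inf' := fun a b => map_inf e.symm a b
      map_top' := map_top e.symm
      map_bot' := map_bot e.symm }
  have := cbIdeal_map f e.symm.surjective β ⊤ h
  rwa [map_top] at this

/-- atoms below elements of a proper Cantor-Bendixson ideal are countable in number. -/
lemma countable_atoms_below (hP : PropertyP B) {δ : Ordinal.{0}}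
    (htop : (⊤ : B) ∉ cbIdeal B δ) {b : B} (hb : b ∈ cbIdeal B δ) :
    {x : B | IsAtom x ∧ x ≤ b}.Countable := by
  by_contra hcon
  apply htop
  have hS : ∀ x ∈ {x : B | IsAtom x ∧ x ≤ b}, IsAtom x := fun x hx => hx.1
  refine top_mem_of_trace hS hcon hP ?_
  have h1 := cbIdeal_map (toTrace _ hS) (toTrace_surjective _ hS) δ b hb
  have h2 : toTrace _ hS b = ⊤ := by
    rw [eq_top_iff, ← map_top (toTrace _ hS), toTrace_le_iff]
    intro x hx _
    exact hx.2
  rwa [h2] at h1

lemma exists_atomMod {δ : Ordinal.{0}} (hsa : ∃ β, cbIdeal B β = Set.univ) {x : B}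
    (hx : x ∉ cbIdeal B δ) : ∃ p ≤ x, AtomMod (cbIdeal B δ) p := by
  classical
  have hex : ∃ γ : Ordinal.{0}, ∃ y ≤ x, y ∉ cbIdeal B δ ∧ y ∈ cbIdeal B γ := by
    obtain ⟨β, hβ⟩ := hsa
    exact ⟨β, x, le_rfl, hx, by rw [hβ]; trivial⟩
  set T : Set Ordinal.{0} := {γ | ∃ y ≤ x, y ∉ cbIdeal B δ ∧ y ∈ cbIdeal B γ} with hT
  obtain ⟨γ, hγ, hmin⟩ := WellFounded.has_min (wellFounded_lt (α := Ordinal.{0})) T hex
  obtain ⟨y, hyx, hyδ, hyγ⟩ := hγ
  have hmin' : ∀ η < γ, ∀ z ≤ x, z ∈ cbIdeal B η → z ∈ cbIdeal B δ := by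
    intro η hη z hz hzη
    by_contra h
    exact hmin η ⟨z, hz, h, hzη⟩ hη
  rcases Ordinal.zero_or_succ_or_isSuccLimit γ with h0 | ⟨η, hη⟩ | hlim
  · exfalso
    rw [h0] at hyγ
    exact hyδ (cbIdeal_mono (by simp) hyγ)
  · rw [← hη, ] at hyγ
    have hγ' : γ = η + 1 := by simpa using hη.symm
    have hηγ : η < γ := by rw [hγ']; exact lt_add_one η
    have hδη : δ ≤ η := by
      by_contra h
      push Not at h
      apply hyδ
      refine cbIdeal_mono (Order.add_one_le_iff.2 h) ?_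
      simpa using hyγ
    have hyd : y ∈ derive (cbIdeal B η) := by
      rw [← cbIdeal_succ]
      simpa using hyγ
    obtain ⟨s, hs, hs'⟩ := hyd
    have hI := cbIdeal_isIdeal (B := B) η
    have hyη : y ∉ cbIdeal B η := fun h => hyδ (hmin' η hηγ y hyx h)
    have h1 : ∃ p ∈ s, y ⊓ p ∉ cbIdeal B η := by
      by_contra hcon
      push Not at hcon
      apply hyη
      have h2 : y ⊓ s.sup id ∈ cbIdeal B η := by
        rw [Finset.sup_inf_distrib_left]
        exact hI.finset_sup _ _ (fun p hp => hcon p hp)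
      refine hI.down _ (hI.sup _ h2 _ hs') _ ?_
      have : y ≤ (y ⊓ s.sup id) ⊔ (y \ s.sup id) := by rw [sup_inf_sdiff]
      exact this.trans (sup_le_sup_left le_sup_left _)
    obtain ⟨p, hp, hyp⟩ := h1
    refine ⟨y ⊓ p, inf_le_left.trans hyx, ?_, ?_⟩
    · intro h
      exact hyp (cbIdeal_mono hδη h)
    · intro c hc
      rcases (hs p hp).2 c (hc.trans inf_le_right) with h | h
      · exact Or.inl (hmin' η hηγ c (hc.trans (inf_le_left.trans hyx)) h)
      · right
        refine hmin' η hηγ _ (sdiff_le.trans (inf_le_left.trans hyx)) ?_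
        exact hI.down _ h _ (sdiff_le_sdiff_right inf_le_right)
  · exfalso
    rw [cbIdeal_limit γ hlim] at hyγ
    obtain ⟨η, hη, h⟩ := hyγ
    exact hyδ (hmin' η hη y hyx h)

lemma mem_or_compl_mem {δ : Ordinal.{0}} (hsa : ∃ β, cbIdeal B β = Set.univ)
    (h1 : numAtoms (cbIdeal B δ) ≤ 1) (b : B) : b ∈ cbIdeal B δ ∨ bᶜ ∈ cbIdeal B δ := by
  by_contra hcon
  push Not at hcon
  obtain ⟨p, hp, hpa⟩ := exists_atomMod hsa hcon.1
  obtain ⟨q, hq, hqa⟩ := exists_atomMod hsa hcon.2
  have hI := cbIdeal_isIdeal (B := B) δ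
  have h3 : Subsingleton (Quot fun p q : {p : B // AtomMod (cbIdeal B δ) p} =>
      symmDiff p.1 q.1 ∈ cbIdeal B δ) := le_one_iff_subsingleton.1 h1
  have h4 := h3.elim (Quot.mk _ ⟨p, hpa⟩) (Quot.mk _ ⟨q, hqa⟩)
  have hreq : Equivalence fun p q : {p : B // AtomMod (cbIdeal B δ) p} =>
      symmDiff p.1 q.1 ∈ cbIdeal B δ :=
    ⟨fun p => hI.equivalence.refl _, fun h => hI.equivalence.symm h,
      fun h h' => hI.equivalence.trans h h'⟩
  rw [hreq.quot_mk_eq_iff] at h4
  apply hpa.1
  refine hI.down _ h4 _ ?_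
  have hd : Disjoint p q := Disjoint.mono hp hq disjoint_compl_right
  simp only
  rw [hd.symmDiff_eq_sup]
  exact le_sup_left

end Pool.Agent.Helper26.SA
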