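import Pool.Agent.Helper26.SADefs

set_option autoImplicit false

open Cardinal Ordinal

namespace Pool.Agent.Helper26.SA

variable {B : Type} [BooleanAlgebra B]

structure IsIdeal (I : Set B) : Prop where
  bot : ⊥ ∈ I
  down : ∀ a ∈ I, ∀ b ≤ a, b ∈ I
  sup : ∀ a ∈ I, ∀ b ∈ I, a ⊔ b ∈ I

lemma IsIdeal.finset_sup {I : Set B} (hI : IsIdeal I) {ι : Type*} (s : Finset ι) (f : ι → B)
    (h : ∀ i ∈ s, f i ∈ I) : s.sup f ∈ I := by
  classical
  induction s using Finset.induction_on with
  | empty => simpa using hI.bot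
  | insert a s ha ih =>
    rw [Finset.sup_insert]
    exact hI.sup _ (h a (Finset.mem_insert_self _ _)) _
      (ih (fun i hi => h i (Finset.mem_insert_of_mem hi)))

/-- no `k + 1` pairwise disjoint elements below `b` outside `I`. -/
def Len (I : Set B) (k : ℕ) (b : B) : Prop :=
  ∀ x : Fin (k + 1) → B, (∀ i, x i ≤ b) → (∀ i j, i ≠ j → Disjoint (x i) (x j)) → ∃ i, x i ∈ I

lemma len_zero {I : Set B} (hI : IsIdeal I) {b : B} : Len I 0 b ↔ b ∈ I := by
  constructor
  · intro h
    obtain ⟨i, hi⟩ := h (fun _ => b) (fun _ => le_rfl)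
      (fun i j hij => absurd (Fin.ext (by omega)) hij)
    exact hi
  · intro h x hx _
    exact ⟨0, hI.down _ h _ (hx 0)⟩

lemma Len.mono {I : Set B} {k : ℕ} {b c : B} (h : Len I k b) (hc : c ≤ b) : Len I k c :=
  fun x hx hd => h x (fun i => (hx i).trans hc) hd

lemma Len.step {I : Set B} {k : ℕ} {b c : B} (h : Len I (k + 1) b) (hc : b ⊓ c ∉ I) :
    Len I k (b \ c) := by
  intro x hx hd
  have hdis : ∀ j, Disjoint (b ⊓ c) (x j) := fun j => by
    refine Disjoint.mono inf_le_right (hx j) ?_
    exact disjoint_sdiff_self_right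
  obtain ⟨i, hi⟩ := h (Fin.cons (b ⊓ c) x) (by
    intro i
    refine Fin.cases ?_ ?_ i
    · simp
    · intro j
      simpa using (hx j).trans sdiff_le) (by
    intro i j
    refine Fin.cases ?_ ?_ i
    · refine Fin.cases ?_ ?_ j
      · intro h; exact absurd rfl h
      · intro j _
        simpa using hdis j
    · intro i
      refine Fin.cases ?_ ?_ j
      · intro _
        simpa using (hdis i).symm
      · intro j hij
        simpa using hd i j (fun h => hij (by rw [h])))
  revert hi
  refine Fin.cases ?_ ?_ i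
  · intro hi
    exact absurd (by simpa using hi) hc
  · intro j hj
    exact ⟨j, by simpa using hj⟩

lemma mem_derive_of_len {I : Set B} (hI : IsIdeal I) (k : ℕ) : ∀ b, Len I k b → b ∈ derive I := by
  classical
  induction k with
  | zero =>
    intro b hb
    refine ⟨∅, by simp, ?_⟩
    simpa using (len_zero hI).1 hb
  | succ k ih =>
    intro b hb
    by_cases h1 : b ∈ I
    · exact ⟨∅, by simp, by simpa using h1⟩
    by_cases h2 : AtomMod I b
    · exact ⟨{b}, by simpa using h2, by simpa using hI.bot⟩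
    have h3 : ∃ c ≤ b, c ∉ I ∧ b \ c ∉ I := by
      by_contra hcon
      push Not at hcon
      exact h2 ⟨h1, fun c hc => by
        by_cases hcI : c ∈ I
        · exact Or.inl hcI
        · exact Or.inr (hcon c hc hcI)⟩
    obtain ⟨c, hc, hcI, hbc⟩ := h3
    have hl1 : Len I k (b \ c) := hb.step (by rwa [inf_eq_right.2 hc])
    have hl2 : Len I k c := by
      have := hb.step (c := b \ c) (by rwa [inf_eq_right.2 sdiff_le])
      rwa [sdiff_sdiff_right_self, inf_eq_right.2 hc] at this
    obtain ⟨s, hs, hs'⟩ := ih _ hl1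
    obtain ⟨t, ht, ht'⟩ := ih _ hl2
    refine ⟨s ∪ t, ?_, ?_⟩
    · intro p hp
      rcases Finset.mem_union.1 hp with hp | hp
      · exact hs p hp
      · exact ht p hp
    · have h4 : symmDiff b ((s ∪ t).sup id) ≤
          symmDiff (b \ c) (s.sup id) ⊔ symmDiff c (t.sup id) := by
        rw [Finset.sup_union]
        have hb' : b = (b \ c) ⊔ c := (sdiff_sup_cancel hc).symm
        conv_lhs => rw [hb']
        generalize b \ c = x
        generalize s.sup id = y
        generalize t.sup id = z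
        simp only [symmDiff_def]
        refine sup_le ?_ ?_
        · rw [sup_sdiff]
          refine sup_le ?_ ?_
          · exact (sdiff_le_sdiff_left le_sup_left).trans (le_sup_left.trans le_sup_left)
          · exact (sdiff_le_sdiff_left le_sup_right).trans (le_sup_left.trans le_sup_right)
        · rw [sup_sdiff]
          refine sup_le ?_ ?_
          · exact (sdiff_le_sdiff_left le_sup_left).trans (le_sup_right.trans le_sup_left)
          · exact (sdiff_le_sdiff_left le_sup_right).trans (le_sup_right.trans le_sup_right)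
      exact hI.down _ (hI.sup _ hs' _ ht') _ h4

lemma len_of_mem_derive {I : Set B} (hI : IsIdeal I) {b : B} (hb : b ∈ derive I) :
    ∃ k, Len I k b := by
  classical
  obtain ⟨s, hs, hs'⟩ := hb
  refine ⟨s.card, fun x hx hd => ?_⟩
  by_contra hcon
  push Not at hcon
  have h1 : ∀ i, ∃ p ∈ s, p ⊓ x i ∉ I := by
    intro i
    by_contra h
    push Not at h
    apply hcon i
    have h2 : x i ⊓ s.sup id ∈ I := by
      rw [Finset.sup_inf_distrib_left]
      refine hI.finset_sup _ _ (fun p hp => ?_)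
      have := h p hp
      rwa [inf_comm] at this
    have h3 : x i ≤ (x i ⊓ s.sup id) ⊔ symmDiff b (s.sup id) := by
      have : x i ≤ (x i ⊓ s.sup id) ⊔ (x i \ s.sup id) := by
        rw [sup_inf_sdiff]
      refine this.trans (sup_le_sup_left ?_ _)
      exact (sdiff_le_sdiff_right (hx i)).trans le_sup_left
    exact hI.down _ (hI.sup _ h2 _ hs') _ h3
  choose p hp hp' using h1
  obtain ⟨i, -, j, -, hij, hpij⟩ := Finset.exists_ne_map_eq_of_card_lt_of_maps_to
    (s := (Finset.univ : Finset (Fin (s.card + 1)))) (t := s) (by simp) (f := p)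
    (fun i _ => hp i)
  have h2 := (hs _ (hp i)).2 (p i ⊓ x i) inf_le_left
  rcases h2 with h2 | h2
  · exact hp' i h2
  · apply hp' j
    rw [← hpij]
    refine hI.down _ h2 _ ?_
    rw [sdiff_inf_self_left]
    refine le_sdiff.2 ⟨inf_le_left, ?_⟩
    exact (hd j i hij.symm).mono_left inf_le_right

lemma mem_derive_iff {I : Set B} (hI : IsIdeal I) {b : B} : b ∈ derive I ↔ ∃ k, Len I k b :=
  ⟨len_of_mem_derive hI, fun ⟨k, hk⟩ => mem_derive_of_len hI k b hk⟩

lemma subset_derive {I : Set B} : I ⊆ derive I := fun b hb => ⟨∅, by simp, by simpa using hb⟩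

lemma AtomMod.mem_derive {I : Set B} (hI : IsIdeal I) {p : B} (hp : AtomMod I p) :
    p ∈ derive I := ⟨{p}, by simpa using hp, by simpa using hI.bot⟩

lemma IsIdeal.derive {I : Set B} (hI : IsIdeal I) : IsIdeal (derive I) where
  bot := subset_derive hI.bot
  down := by
    intro a ha b hb
    obtain ⟨k, hk⟩ := (mem_derive_iff hI).1 ha
    exact (mem_derive_iff hI).2 ⟨k, hk.mono hb⟩
  sup := by
    classical
    rintro x ⟨s, hs, hs'⟩ y ⟨t, ht, ht'⟩
    refine ⟨s ∪ t, ?_, ?_⟩
    · intro p hp
      rcases Finset.mem_union.1 hp with hp | hp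
      · exact hs p hp
      · exact ht p hp
    · refine hI.down _ (hI.sup _ hs' _ ht') _ ?_
      rw [Finset.sup_union]
      generalize s.sup id = z
      generalize t.sup id = w
      simp only [symmDiff_def]
      refine sup_le ?_ ?_
      · rw [sup_sdiff]
        refine sup_le ?_ ?_
        · exact (sdiff_le_sdiff_left le_sup_left).trans (le_sup_left.trans le_sup_left)
        · exact (sdiff_le_sdiff_left le_sup_right).trans (le_sup_left.trans le_sup_right)
      · rw [sup_sdiff]
        refine sup_le ?_ ?_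
        · exact (sdiff_le_sdiff_left le_sup_left).trans (le_sup_right.trans le_sup_left)
        · exact (sdiff_le_sdiff_left le_sup_right).trans (le_sup_right.trans le_sup_right)

lemma cbIdeal_zero : cbIdeal B 0 = {⊥} := by
  unfold cbIdeal
  rw [Ordinal.limitRecOn_zero]

lemma cbIdeal_succ (β : Ordinal.{0}) : cbIdeal B (β + 1) = derive (cbIdeal B β) := by
  unfold cbIdeal
  rw [Ordinal.limitRecOn_add_one]

lemma cbIdeal_limit (β : Ordinal.{0}) (h : Order.IsSuccLimit β) :
    cbIdeal B β = {b | ∃ γ < β, b ∈ cbIdeal B γ} := by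
  unfold cbIdeal
  rw [Ordinal.limitRecOn_limit _ _ _ _ h]
  ext b
  simp

lemma cbIdeal_spec (β : Ordinal.{0}) :
    IsIdeal (cbIdeal B β) ∧ ∀ γ ≤ β, cbIdeal B γ ⊆ cbIdeal B β := by
  induction β using Ordinal.limitRecOn with
  | zero =>
    refine ⟨?_, ?_⟩
    · rw [cbIdeal_zero]
      exact ⟨rfl, fun a ha b hb => by
          rw [Set.mem_singleton_iff] at ha ⊢; rw [ha] at hb; exact le_bot_iff.1 hb,
        fun a ha b hb => by
          rw [Set.mem_singleton_iff] at ha hb ⊢; rw [ha, hb]; simp⟩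
    · intro γ hγ
      rw [nonpos_iff_eq_zero.1 hγ]
  | add_one β ih =>
    rw [cbIdeal_succ]
    refine ⟨ih.1.derive, fun γ hγ => ?_⟩
    rcases hγ.lt_or_eq with h | h
    · exact (ih.2 γ (Order.lt_add_one_iff.1 h)).trans subset_derive
    · rw [h, cbIdeal_succ]
  | limit β hβ ih =>
    have hsub : ∀ γ ≤ β, cbIdeal B γ ⊆ cbIdeal B β := by
      intro γ hγ b hb
      rcases hγ.lt_or_eq with h | h
      · rw [cbIdeal_limit β hβ]
        exact ⟨γ, h, hb⟩
      · rwa [← h]
    refine ⟨⟨?_, ?_, ?_⟩, hsub⟩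
    · have := (ih 0 hβ.bot_lt).1.bot
      exact hsub 0 (by simp) this
    · intro a ha b hb
      rw [cbIdeal_limit β hβ] at ha ⊢
      obtain ⟨γ, hγ, h⟩ := ha
      exact ⟨γ, hγ, (ih γ hγ).1.down a h b hb⟩
    · intro a ha b hb
      rw [cbIdeal_limit β hβ] at ha hb ⊢
      obtain ⟨γ, hγ, h⟩ := ha
      obtain ⟨γ', hγ', h'⟩ := hb
      rcases le_total γ γ' with hle | hle
      · exact ⟨γ', hγ', (ih γ' hγ').1.sup _ ((ih γ' hγ').2 _ hle h) _ h'⟩
      · exact ⟨γ, hγ, (ih γ hγ).1.sup _ h _ ((ih γ hγ).2 _ hle h')⟩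

lemma cbIdeal_isIdeal (β : Ordinal.{0}) : IsIdeal (cbIdeal B β) := (cbIdeal_spec β).1

lemma cbIdeal_mono {γ β : Ordinal.{0}} (h : γ ≤ β) : cbIdeal B γ ⊆ cbIdeal B β :=
  (cbIdeal_spec β).2 γ h

variable {C : Type} [BooleanAlgebra C]

lemma cbIdeal_map (f : BoundedLatticeHom B C) (hf : Function.Surjective f) (β : Ordinal.{0}) :
    ∀ b ∈ cbIdeal B β, f b ∈ cbIdeal C β := by
  induction β using Ordinal.limitRecOn with
  | zero =>
    intro b hb
    rw [cbIdeal_zero] at hb ⊢
    rw [Set.mem_singleton_iff] at hb ⊢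
    rw [hb, map_bot]
  | add_one β ih =>
    intro b hb
    rw [cbIdeal_succ] at hb ⊢
    obtain ⟨s, hs, hs'⟩ := hb
    have hJ := cbIdeal_isIdeal (B := C) β
    have h1 : ∀ p ∈ s, f p ∈ derive (cbIdeal C β) := by
      intro p hp
      by_cases h : f p ∈ cbIdeal C β
      · exact subset_derive h
      · refine AtomMod.mem_derive hJ ⟨h, fun c hc => ?_⟩
        obtain ⟨x, rfl⟩ := hf c
        have hx : f x = f (p ⊓ x) := by
          rw [map_inf, inf_eq_right.2 hc]
        rcases (hs p hp).2 (p ⊓ x) inf_le_left with h | h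
        · left
          rw [hx]
          exact ih _ h
        · right
          rw [hx, ← map_sdiff']
          exact ih _ h
    have h2 : f b ≤ f (symmDiff b (s.sup id)) ⊔ s.sup (fun p => f p) := by
      have h3 : b ≤ symmDiff b (s.sup id) ⊔ s.sup id := by
        have : b ≤ (b \ s.sup id) ⊔ s.sup id := by simp
        exact this.trans (sup_le_sup_right le_sup_left _)
      have h4 := OrderHomClass.mono f h3
      rw [map_sup, map_finset_sup] at h4
      exact h4
    exact hJ.derive.down _ (hJ.derive.sup _ (subset_derive (ih _ hs')) _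
      (hJ.derive.finset_sup _ _ h1)) _ h2
  | limit β hβ ih =>
    intro b hb
    rw [cbIdeal_limit β hβ] at hb ⊢
    obtain ⟨γ, hγ, h⟩ := hb
    exact ⟨γ, hγ, ih γ hγ b h⟩

end Pool.Agent.Helper26.SA
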