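import Pool.Agent.Helper26.SAForce

set_option autoImplicit false

open Cardinal Ordinal

namespace Pool.Agent.Helper26.SA

variable {B : Type} [BooleanAlgebra B]

lemma derive_mono {I J : Set B} (hI : IsIdeal I) (hJ : IsIdeal J) (h : I ⊆ J) :
    derive I ⊆ derive J := by
  intro b hb
  obtain ⟨k, hk⟩ := (mem_derive_iff hI).1 hb
  refine (mem_derive_iff hJ).2 ⟨k, fun x hx hd => ?_⟩
  obtain ⟨i, hi⟩ := hk x hx hd
  exact ⟨i, h hi⟩

lemma atomMod_zero_iff {p : B} : AtomMod (cbIdeal B 0) p ↔ IsAtom p := by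
  rw [cbIdeal_zero]
  constructor
  · rintro ⟨h1, h2⟩
    refine ⟨h1, fun c hc => ?_⟩
    rcases h2 c hc.le with h | h
    · exact h
    · exact absurd (sdiff_eq_bot_iff.1 h) (not_le_of_gt hc)
  · intro h
    refine ⟨h.1, fun c hc => ?_⟩
    rcases h.le_iff.1 hc with h' | h'
    · exact Or.inl h'
    · exact Or.inr (by rw [h']; simp)

lemma card_atoms (B : Type) [BooleanAlgebra B] :
    #{x : B // IsAtom x} = numAtoms (cbIdeal B 0) := by
  unfold numAtoms
  have hreq : Equivalence fun p q : {p : B // AtomMod (cbIdeal B 0) p} =>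
      symmDiff p.1 q.1 ∈ cbIdeal B 0 := by
    have hI := cbIdeal_isIdeal (B := B) 0
    exact ⟨fun p => hI.equivalence.refl _, fun h => hI.equivalence.symm h,
      fun h h' => hI.equivalence.trans h h'⟩
  refine mk_congr ?_
  refine Equiv.ofBijective (fun x => Quot.mk _ ⟨x.1, atomMod_zero_iff.2 x.2⟩) ⟨?_, ?_⟩
  · intro x y hxy
    have h := (hreq.quot_mk_eq_iff _ _).1 hxy
    simp only at h
    rw [cbIdeal_zero, Set.mem_singleton_iff, symmDiff_eq_bot] at h
    exact Subtype.ext h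
  · intro q
    obtain ⟨⟨p, hp⟩, rfl⟩ := Quot.exists_rep q
    exact ⟨⟨p, atomMod_zero_iff.1 hp⟩, rfl⟩

/-- a trace with finitely many points lies in the first ideal. -/
lemma trace_mem_one {S : Set B} (hS : ∀ x ∈ S, IsAtom x) {b : B}
    (hfin : {x ∈ S | x ≤ b}.Finite) : toTrace S hS b ∈ cbIdeal (TraceAlg S hS) 1 := by
  classical
  have h01 : (1 : Ordinal.{0}) = 0 + 1 := by simp
  rw [h01, cbIdeal_succ]
  have hI := cbIdeal_isIdeal (B := TraceAlg S hS) 0
  refine mem_derive_of_len hI hfin.toFinset.card _ ?_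
  intro x hx hd
  by_contra hcon
  push Not at hcon
  have h1 : ∀ i, ∃ y ∈ S, y ≤ b ∧ ∃ z : B, x i = toTrace S hS z ∧ y ≤ z := by
    intro i
    obtain ⟨z, hz⟩ := toTrace_surjective S hS (x i)
    have h2 : ¬ toTrace S hS z ≤ toTrace S hS ⊥ := by
      intro h
      apply hcon i
      rw [cbIdeal_zero, Set.mem_singleton_iff, ← hz, ← le_bot_iff, ← map_bot (toTrace S hS)]
      exact h
    rw [toTrace_le_iff] at h2
    push Not at h2
    obtain ⟨y, hyS, hyz, -⟩ := h2
    have h3 : toTrace S hS z ≤ toTrace S hS b := by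
      rw [hz]
      exact hx i
    exact ⟨y, hyS, (toTrace_le_iff S hS).1 h3 y hyS hyz, z, hz.symm, hyz⟩
  choose y hyS hyb z hxz hyz using h1
  obtain ⟨i, -, j, -, hij, hyy⟩ := Finset.exists_ne_map_eq_of_card_lt_of_maps_to
    (s := (Finset.univ : Finset (Fin (hfin.toFinset.card + 1)))) (t := hfin.toFinset)
    (by simp) (f := y) (fun i _ => by
      have h := hfin.mem_toFinset.2 ⟨hyS i, hyb i⟩
      exact h)
  have h4 := hd i j hij
  rw [hxz i, hxz j, disjoint_iff, ← map_inf, ← le_bot_iff, ← map_bot (toTrace S hS),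
    toTrace_le_iff] at h4
  have h5 := h4 (y i) (hyS i) (le_inf (hyz i) (by rw [hyy]; exact hyz j))
  exact (hS _ (hyS i)).1 (le_bot_iff.1 h5)

/-- Under `MA_ℵ₁` no Boolean algebra with property (P) has cardinal sequence
`⟨ℵ₁, ℵ₁, …, 1⟩` of a countable length `> 1`. -/
theorem main (hMA : MartinAxiomAlephOne) {δ : Ordinal.{0}} (h1 : 1 < δ) (hδ : δ < ω₁)
    (hP : PropertyP B) (hB : HasCardSeq B ℵ₁ δ) : False := by
  classical
  have htop : (⊤ : B) ∉ cbIdeal B δ := by
    intro h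
    have h2 : numAtoms (cbIdeal B δ) = 0 := by
      unfold numAtoms
      rw [mk_eq_zero_iff]
      refine ⟨fun q => ?_⟩
      obtain ⟨p, -⟩ := Quot.exists_rep q
      exact p.2.1 ((cbIdeal_isIdeal δ).down _ h _ le_top)
    rw [hB.top] at h2
    exact one_ne_zero h2
  have hbel : ∀ b ∈ cbIdeal B δ, {x : B | IsAtom x ∧ x ≤ b}.Countable :=
    fun b hb => countable_atoms_below hP htop hb
  have hI1 := card_cbIdeal_le hδ (fun β hβ => (hB.level β hβ).le) δ le_rfl
  have hat : #{x : B // IsAtom x} = ℵ₁ := by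
    rw [card_atoms, hB.level 0 (lt_trans zero_lt_one h1)]
  obtain ⟨S, hS, hSu, hSf⟩ := exists_thin hMA hδ hbel hI1 hat
  apply htop
  have h12 : (1 : Ordinal.{0}) + 1 ≤ δ := Order.add_one_le_iff.2 h1
  refine cbIdeal_mono h12 ?_
  refine top_mem_of_trace hS hSu hP ?_
  rw [cbIdeal_succ]
  have hJ := cbIdeal_isIdeal (B := TraceAlg S hS) 1
  by_cases hmem : (⊤ : TraceAlg S hS) ∈ cbIdeal (TraceAlg S hS) 1
  · exact subset_derive hmem
  refine AtomMod.mem_derive hJ ⟨hmem, fun c _ => ?_⟩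
  obtain ⟨b, rfl⟩ := toTrace_surjective S hS c
  rcases mem_or_compl_mem hB.superatomic hB.top.le b with h | h
  · exact Or.inl (trace_mem_one hS (hSf b h))
  · right
    have h3 : (⊤ : TraceAlg S hS) \ toTrace S hS b = toTrace S hS bᶜ := by
      rw [← map_top (toTrace S hS), ← map_sdiff', top_sdiff]
    rw [h3]
    exact trace_mem_one hS (hSf _ h)

end Pool.Agent.Helper26.SA
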