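import Pool.Agent.Results.MP_3bd889_lc.HereditaryClasses

/-!
# Graphs with few large (or few very negative) eigenvalues

If at most `k` eigenvalues of the adjacency matrix of a graph of rank `r > 1` exceed `θ ≥ 0`, or at
most `k` are below `-θ`, then `log χ(G) ≤ 52 (k + 1) (θ + 1) (log r)²`.
-/

namespace Pool.Agent.Helper26.SpectralVersion

open Matrix Finset

set_option linter.unusedSectionVars false

variable {V : Type*} [Fintype V] [DecidableEq V]

section spectral

variable {A : Matrix V V ℝ} (hA : A.IsHermitian)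

/-- the `i`-th eigenvector, as a plain function -/
noncomputable def ev (i : V) : V → ℝ := ⇑(hA.eigenvectorBasis i)

theorem ev_mulVec (i : V) : A *ᵥ ev hA i = hA.eigenvalues i • ev hA i :=
  hA.mulVec_eigenvectorBasis i

theorem inner_ev (i : V) (x : V → ℝ) :
    inner ℝ (hA.eigenvectorBasis i) (WithLp.toLp 2 x) = ev hA i ⬝ᵥ x := by
  rw [EuclideanSpace.inner_eq_star_dotProduct, dotProduct_comm]
  simp [ev]

theorem dot_self (x : V → ℝ) : x ⬝ᵥ x = ∑ i, (ev hA i ⬝ᵥ x) ^ 2 := by
  have h := hA.eigenvectorBasis.sum_inner_mul_inner (WithLp.toLp 2 x) (WithLp.toLp 2 x)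
  have h1 : inner ℝ (WithLp.toLp 2 x) (WithLp.toLp 2 x) = x ⬝ᵥ x := by
    rw [EuclideanSpace.inner_eq_star_dotProduct]
    simp
  rw [← h1, ← h]
  refine Finset.sum_congr rfl fun i _ => ?_
  rw [real_inner_comm, inner_ev, sq]

theorem dot_mulVec (x : V → ℝ) :
    x ⬝ᵥ (A *ᵥ x) = ∑ i, hA.eigenvalues i * (ev hA i ⬝ᵥ x) ^ 2 := by
  have h := hA.eigenvectorBasis.sum_inner_mul_inner (WithLp.toLp 2 x) (WithLp.toLp 2 (A *ᵥ x))
  have h1 : inner ℝ (WithLp.toLp 2 x) (WithLp.toLp 2 (A *ᵥ x)) = x ⬝ᵥ (A *ᵥ x) := by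
    rw [EuclideanSpace.inner_eq_star_dotProduct, dotProduct_comm]
    simp
  rw [← h1, ← h]
  refine Finset.sum_congr rfl fun i _ => ?_
  rw [real_inner_comm, inner_ev, inner_ev]
  have h2 : ev hA i ⬝ᵥ (A *ᵥ x) = hA.eigenvalues i * (ev hA i ⬝ᵥ x) := by
    have hT : Aᵀ = A := by
      have := hA
      rwa [Matrix.IsHermitian, Matrix.conjTranspose_eq_transpose_of_trivial] at this
    rw [dotProduct_mulVec, ← mulVec_transpose, hT, ev_mulVec, smul_dotProduct, smul_eq_mul]
  rw [h2]
  ring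

/-- A test-subspace bound (one half of the Courant–Fischer principle). -/
theorem test_subspace (μ : V → ℝ) {m : ℕ} (B : (Fin m → ℝ) →ₗ[ℝ] (V → ℝ))
    (hB : ∀ c : Fin m → ℝ, c ≠ 0 → 0 < ∑ i, μ i * (ev hA i ⬝ᵥ B c) ^ 2) :
    m ≤ #{i | 0 < μ i} := by
  by_contra hlt
  push Not at hlt
  let φ : (Fin m → ℝ) →ₗ[ℝ] ({i // 0 < μ i} → ℝ) :=
    { toFun := fun c i => ev hA i ⬝ᵥ B c
      map_add' := fun c d => by
        funext i
        simp [dotProduct_add]
      map_smul' := fun a c => by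
        funext i
        simp [dotProduct_smul] }
  have hφ : LinearMap.ker φ ≠ ⊥ := by
    apply LinearMap.ker_ne_bot_of_finrank_lt
    rw [Module.finrank_fintype_fun_eq_card, Module.finrank_fintype_fun_eq_card, Fintype.card_fin,
      Fintype.card_subtype]
    exact hlt
  obtain ⟨c, hc, hc0⟩ := (Submodule.ne_bot_iff _).1 hφ
  have h1 := hB c hc0
  have h2 : ∑ i, μ i * (ev hA i ⬝ᵥ B c) ^ 2 ≤ 0 := by
    apply Finset.sum_nonpos
    intro i _
    by_cases hi : 0 < μ i
    · have h3 : φ c ⟨i, hi⟩ = 0 := by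
        rw [LinearMap.mem_ker] at hc
        rw [hc]
        rfl
      have h4 : ev hA i ⬝ᵥ B c = 0 := h3
      rw [h4]
      simp
    · push Not at hi
      exact mul_nonpos_of_nonpos_of_nonneg hi (sq_nonneg _)
  linarith

theorem card_roots_gt (θ : ℝ) :
    (A.charpoly.roots.filter (fun x => θ < x)).card = #{i | 0 < hA.eigenvalues i - θ} := by
  rw [hA.roots_charpoly_eq_eigenvalues, Multiset.filter_map, Multiset.card_map]
  simp only [Finset.card_def, Finset.filter_val]
  congr 1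
  apply Multiset.filter_congr
  intro i _
  simp

theorem card_roots_lt (θ : ℝ) :
    (A.charpoly.roots.filter (fun x => x < -θ)).card = #{i | 0 < -hA.eigenvalues i - θ} := by
  rw [hA.roots_charpoly_eq_eigenvalues, Multiset.filter_map, Multiset.card_map]
  simp only [Finset.card_def, Finset.filter_val]
  congr 1
  apply Multiset.filter_congr
  intro i _
  simp
  constructor <;> intro h <;> linarith

end spectral

section testvectors

variable {ι : Type*} [Fintype ι] [DecidableEq ι]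

/-- the vector supported on the image of `f` with weights `w` -/
def vec (f : ι → V) (w : ι → ℝ) : V → ℝ := ∑ i, w i • Pi.single (f i) (1 : ℝ)

theorem vec_dot (f : ι → V) (w : ι → ℝ) (y : V → ℝ) : vec f w ⬝ᵥ y = ∑ i, w i * y (f i) := by
  rw [vec, sum_dotProduct]
  refine Finset.sum_congr rfl fun i _ => ?_
  rw [smul_dotProduct, single_dotProduct]
  simp

theorem vec_apply (f : ι → V) (hf : Function.Injective f) (w : ι → ℝ) (i : ι) :
    vec f w (f i) = w i := by
  rw [vec, Finset.sum_apply, Finset.sum_eq_single i]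
  · simp
  · intro j _ hj
    have : f i ≠ f j := fun h => hj (hf h).symm
    simp [this]
  · intro h
    exact absurd (Finset.mem_univ _) h

theorem vec_dot_self (f : ι → V) (hf : Function.Injective f) (w : ι → ℝ) :
    vec f w ⬝ᵥ vec f w = ∑ i, w i ^ 2 := by
  rw [vec_dot]
  refine Finset.sum_congr rfl fun i _ => ?_
  rw [vec_apply f hf, sq]

theorem vec_quad (A : Matrix V V ℝ) (f : ι → V) (w : ι → ℝ) :
    vec f w ⬝ᵥ (A *ᵥ vec f w) = ∑ i, ∑ j, w i * (w j * A (f i) (f j)) := by
  rw [vec_dot]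
  refine Finset.sum_congr rfl fun i _ => ?_
  rw [← Finset.mul_sum]
  congr 1
  rw [mulVec, dotProduct_comm, vec_dot]

/-- `vec` as a linear map, the weights depending linearly on parameters -/
def vecLin {m : ℕ} (f : ι → V) (L : (Fin m → ℝ) →ₗ[ℝ] (ι → ℝ)) : (Fin m → ℝ) →ₗ[ℝ] (V → ℝ) where
  toFun c := vec f (L c)
  map_add' c d := by
    simp only [vec, map_add, Pi.add_apply, add_smul, Finset.sum_add_distrib]
  map_smul' a c := by
    simp only [vec, map_smul, Pi.smul_apply, smul_assoc, RingHom.id_apply, Finset.smul_sum]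

end testvectors

/-- The disjoint union of `m` complete graphs on `s` vertices. -/
def cliques (m s : ℕ) : SimpleGraph (Fin m × Fin s) where
  Adj x y := x.1 = y.1 ∧ x.2 ≠ y.2
  symm := ⟨fun _ _ h => ⟨h.1.symm, h.2.symm⟩⟩
  loopless := ⟨fun _ h => h.2 rfl⟩

/-- The disjoint union of `m` complete bipartite graphs `K_{s,s}`. -/
def bicliques (m s : ℕ) : SimpleGraph (Fin m × (Bool × Fin s)) where
  Adj x y := x.1 = y.1 ∧ x.2.1 ≠ y.2.1
  symm := ⟨fun _ _ h => ⟨h.1.symm, h.2.symm⟩⟩
  loopless := ⟨fun _ h => h.2 rfl⟩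

theorem sum_cliques (m s : ℕ) (c : Fin m → ℝ) :
    ∑ x : Fin m × Fin s, ∑ y : Fin m × Fin s,
      c x.1 * (c y.1 * (if x.1 = y.1 ∧ x.2 ≠ y.2 then (1 : ℝ) else 0)) =
      ((s : ℝ) - 1) * ∑ x : Fin m × Fin s, c x.1 ^ 2 := by
  rw [Finset.mul_sum]
  refine Finset.sum_congr rfl fun x _ => ?_
  obtain ⟨j, a⟩ := x
  rw [Fintype.sum_prod_type, Finset.sum_eq_single j]
  · dsimp only
    have : ∀ b : Fin s, c j * (c j * (if j = j ∧ a ≠ b then (1 : ℝ) else 0)) =
        c j ^ 2 * (if a ≠ b then (1 : ℝ) else 0) := by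
      intro b
      simp only [true_and]
      ring
    rw [Finset.sum_congr rfl fun b _ => this b, ← Finset.mul_sum, Finset.sum_ite]
    simp only [Finset.sum_const_zero, add_zero, Finset.sum_const, nsmul_eq_mul, mul_one]
    have h1 : (#{b : Fin s | a ≠ b} : ℝ) = s - 1 := by
      have h2 : (Finset.univ.filter fun b : Fin s => a ≠ b) = Finset.univ.erase a := by
        ext b; simp [eq_comm]
      rw [h2, Finset.card_erase_of_mem (Finset.mem_univ _), Finset.card_univ, Fintype.card_fin,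
        Nat.cast_sub (Nat.succ_le_of_lt a.pos)]
      simp
    rw [h1]; ring
  · intro j' _ hj'
    apply Finset.sum_eq_zero
    intro b _
    simp [hj'.symm]
  · intro h
    exact absurd (Finset.mem_univ _) h

/-- the sign attached to a side of a biclique -/
def sgn (b : Bool) : ℝ := if b then 1 else -1

theorem sum_bicliques (m s : ℕ) (c : Fin m → ℝ) :
    ∑ x : Fin m × (Bool × Fin s), ∑ y : Fin m × (Bool × Fin s),
      (sgn x.2.1 * c x.1) * ((sgn y.2.1 * c y.1) *
        (if x.1 = y.1 ∧ x.2.1 ≠ y.2.1 then (1 : ℝ) else 0)) =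
      (-(s : ℝ)) * ∑ x : Fin m × (Bool × Fin s), (sgn x.2.1 * c x.1) ^ 2 := by
  rw [Finset.mul_sum]
  refine Finset.sum_congr rfl fun x _ => ?_
  obtain ⟨j, e, a⟩ := x
  rw [Fintype.sum_prod_type, Finset.sum_eq_single j]
  · rw [Fintype.sum_prod_type]
    simp only [Fintype.sum_bool, Finset.sum_const, Finset.card_univ, Fintype.card_fin,
      nsmul_eq_mul]
    cases e <;> simp [sgn] <;> ring_nf <;> simp
  · intro j' _ hj'
    apply Finset.sum_eq_zero
    intro b _
    simp [hj'.symm]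
  · intro h
    exact absurd (Finset.mem_univ _) h

theorem no_cliques (G : SimpleGraph V) [DecidableRel G.Adj] (k s : ℕ) (θ : ℝ)
    (hs : θ < (s : ℝ) - 1) (hθ : 0 ≤ θ)
    (h : ((G.adjMatrix ℝ).charpoly.roots.filter (fun x => θ < x)).card ≤ k) :
    IsEmpty (cliques (k + 1) s ↪g G) := by
  have hA : (G.adjMatrix ℝ).IsHermitian := by
    rw [Matrix.IsHermitian, Matrix.conjTranspose_eq_transpose_of_trivial]
    exact G.isSymm_adjMatrix
  constructor
  intro f
  rw [card_roots_gt hA θ] at h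
  let L : (Fin (k + 1) → ℝ) →ₗ[ℝ] (Fin (k + 1) × Fin s → ℝ) := LinearMap.funLeft ℝ ℝ Prod.fst
  have := test_subspace hA (fun i => hA.eigenvalues i - θ) (vecLin f L) (by
    intro c hc
    have e1 : ∑ i, (hA.eigenvalues i - θ) * (ev hA i ⬝ᵥ vecLin f L c) ^ 2 =
        (vec f (L c)) ⬝ᵥ ((G.adjMatrix ℝ) *ᵥ (vec f (L c))) - θ * (vec f (L c) ⬝ᵥ vec f (L c)) := by
      rw [dot_mulVec hA, dot_self hA, Finset.mul_sum, ← Finset.sum_sub_distrib]
      refine Finset.sum_congr rfl fun i _ => ?_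
      change _ * (ev hA i ⬝ᵥ vec f (L c)) ^ 2 = _
      ring
    rw [e1, vec_dot_self f f.injective, vec_quad]
    have e2 : ∀ x y : Fin (k + 1) × Fin s, (L c) x * ((L c) y * (G.adjMatrix ℝ) (f x) (f y)) =
        c x.1 * (c y.1 * (if x.1 = y.1 ∧ x.2 ≠ y.2 then (1 : ℝ) else 0)) := by
      intro x y
      rw [SimpleGraph.adjMatrix_apply]
      have : G.Adj (f x) (f y) ↔ (x.1 = y.1 ∧ x.2 ≠ y.2) := f.map_adj_iff
      simp only [this]
      rfl
    rw [Finset.sum_congr rfl fun x _ => Finset.sum_congr rfl fun y _ => e2 x y, sum_cliques]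
    have e3 : ∑ x : Fin (k + 1) × Fin s, (L c) x ^ 2 = ∑ x : Fin (k + 1) × Fin s, c x.1 ^ 2 := rfl
    rw [e3, ← sub_mul]
    apply mul_pos (by linarith)
    obtain ⟨j, hj⟩ : ∃ j, c j ≠ 0 := by
      by_contra hne
      push Not at hne
      exact hc (funext hne)
    have hs0 : 0 < s := by
      by_contra h0
      have : s = 0 := by omega
      subst this
      simp at hs
      linarith
    refine Finset.sum_pos' (fun _ _ => sq_nonneg _) ⟨(j, ⟨0, hs0⟩), Finset.mem_univ _, ?_⟩
    positivity)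
  omega

theorem no_bicliques (G : SimpleGraph V) [DecidableRel G.Adj] (k s : ℕ) (θ : ℝ)
    (hs : θ < (s : ℝ)) (hθ : 0 ≤ θ)
    (h : ((G.adjMatrix ℝ).charpoly.roots.filter (fun x => x < -θ)).card ≤ k) :
    IsEmpty (bicliques (k + 1) s ↪g G) := by
  have hA : (G.adjMatrix ℝ).IsHermitian := by
    rw [Matrix.IsHermitian, Matrix.conjTranspose_eq_transpose_of_trivial]
    exact G.isSymm_adjMatrix
  constructor
  intro f
  rw [card_roots_lt hA θ] at h
  let L : (Fin (k + 1) → ℝ) →ₗ[ℝ] (Fin (k + 1) × (Bool × Fin s) → ℝ) :=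
    { toFun := fun c x => sgn x.2.1 * c x.1
      map_add' := fun c d => by
        funext x
        simp [mul_add]
      map_smul' := fun a c => by
        funext x
        simp [mul_left_comm] }
  have := test_subspace hA (fun i => -hA.eigenvalues i - θ) (vecLin f L) (by
    intro c hc
    have e1 : ∑ i, (-hA.eigenvalues i - θ) * (ev hA i ⬝ᵥ vecLin f L c) ^ 2 =
        -((vec f (L c)) ⬝ᵥ ((G.adjMatrix ℝ) *ᵥ (vec f (L c)))) -
          θ * (vec f (L c) ⬝ᵥ vec f (L c)) := by
      rw [dot_mulVec hA, dot_self hA, Finset.mul_sum, ← Finset.sum_neg_distrib,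
        ← Finset.sum_sub_distrib]
      refine Finset.sum_congr rfl fun i _ => ?_
      change _ * (ev hA i ⬝ᵥ vec f (L c)) ^ 2 = _
      ring
    rw [e1, vec_dot_self f f.injective, vec_quad]
    have e2 : ∀ x y : Fin (k + 1) × (Bool × Fin s),
        (L c) x * ((L c) y * (G.adjMatrix ℝ) (f x) (f y)) =
        (sgn x.2.1 * c x.1) * ((sgn y.2.1 * c y.1) *
          (if x.1 = y.1 ∧ x.2.1 ≠ y.2.1 then (1 : ℝ) else 0)) := by
      intro x y
      rw [SimpleGraph.adjMatrix_apply]
      have : G.Adj (f x) (f y) ↔ (x.1 = y.1 ∧ x.2.1 ≠ y.2.1) := f.map_adj_iff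
      simp only [this]
      rfl
    rw [Finset.sum_congr rfl fun x _ => Finset.sum_congr rfl fun y _ => e2 x y, sum_bicliques]
    have e3 : ∑ x : Fin (k + 1) × (Bool × Fin s), (L c) x ^ 2 =
        ∑ x : Fin (k + 1) × (Bool × Fin s), (sgn x.2.1 * c x.1) ^ 2 := rfl
    rw [e3, neg_mul, neg_neg, ← sub_mul]
    apply mul_pos (by linarith)
    obtain ⟨j, hj⟩ : ∃ j, c j ≠ 0 := by
      by_contra hne
      push Not at hne
      exact hc (funext hne)
    have hs0 : 0 < s := by
      by_contra h0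
      have : s = 0 := by omega
      subst this
      simp at hs
      linarith
    refine Finset.sum_pos' (fun _ _ => sq_nonneg _) ⟨(j, true, ⟨0, hs0⟩), Finset.mem_univ _, ?_⟩
    simp only [sgn, if_true, one_mul]
    positivity)
  omega

/-- **Few eigenvalues of large absolute value on one side.**  Let `G` be a finite graph whose
adjacency matrix has rank `r > 1`, and let `θ ≥ 0`.  If at most `k` eigenvalues (with multiplicity)
are larger than `θ`, or at most `k` are smaller than `-θ`, then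
`log χ(G) ≤ 52 (k + 1) (θ + 1) (log r)²`. -/
theorem result (k n : ℕ) (θ : ℝ) (hθ : 0 ≤ θ) (G : SimpleGraph (Fin n)) [DecidableRel G.Adj]
    (h : ((G.adjMatrix ℝ).charpoly.roots.filter (fun x => θ < x)).card ≤ k ∨
      ((G.adjMatrix ℝ).charpoly.roots.filter (fun x => x < -θ)).card ≤ k)
    (hr : 1 < (G.adjMatrix ℝ).rank) :
    Real.log (G.chromaticNumber.toNat : ℝ) ≤
      52 * (k + 1) * (θ + 1) * Real.log ((G.adjMatrix ℝ).rank : ℝ) ^ 2 := by
  have key : ∀ (h : ℕ) (W : Type) [Fintype W] (H : SimpleGraph W), Fintype.card W = h →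
      (h : ℝ) ≤ 2 * (k + 1) * (θ + 1) → IsEmpty (H ↪g G) →
      Real.log (G.chromaticNumber.toNat : ℝ) ≤
        52 * (k + 1) * (θ + 1) * Real.log ((G.adjMatrix ℝ).rank : ℝ) ^ 2 := by
    intro h W _ H hW hle hemb
    have e : W ≃ Fin h := Fintype.equivFinOfCardEq hW
    let H' : SimpleGraph (Fin h) := H.comap e.symm
    have hemb' : IsEmpty (H' ↪g G.induce {v | (fun _ : Fin n => (0 : Fin 1)) v = 0}) := by
      constructor
      intro f
      apply hemb.false
      refine ⟨⟨fun w => (f (e w)).1, ?_⟩, ?_⟩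
      · intro a b hab
        have : f (e a) = f (e b) := Subtype.ext hab
        exact e.injective (f.injective this)
      · intro a b
        have h1 : (G.induce {v | (fun _ : Fin n => (0 : Fin 1)) v = 0}).Adj (f (e a)) (f (e b)) ↔
            H'.Adj (e a) (e b) := f.map_adj_iff
        have h2 : H'.Adj (e a) (e b) ↔ H.Adj a b := by
          simp [H', SimpleGraph.comap_adj]
        rw [← h2, ← h1]
        rfl
    have main := Pool.Agent.Results.MP_3bd889_lc.HereditaryClasses.result h 1 n G (fun _ => 0)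
      (fun i => ⟨H', by
        have : i = 0 := Subsingleton.elim _ _
        subst this
        exact hemb'⟩) hr
    have hL : 0 ≤ Real.log ((G.adjMatrix ℝ).rank : ℝ) ^ 2 := sq_nonneg _
    calc Real.log (G.chromaticNumber.toNat : ℝ) ≤
          Real.log (1 : ℕ) + 26 * h * Real.log ((G.adjMatrix ℝ).rank : ℝ) ^ 2 := main
      _ = 26 * h * Real.log ((G.adjMatrix ℝ).rank : ℝ) ^ 2 := by simp
      _ ≤ 26 * (2 * (k + 1) * (θ + 1)) * Real.log ((G.adjMatrix ℝ).rank : ℝ) ^ 2 := by
          gcongr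
      _ = _ := by ring
  have hfl := Nat.floor_le hθ
  have hfl' := Nat.lt_floor_add_one θ
  have hk : (0 : ℝ) ≤ k := Nat.cast_nonneg k
  rcases h with h | h
  · refine key ((k + 1) * (⌊θ⌋₊ + 2)) _ (cliques (k + 1) (⌊θ⌋₊ + 2)) (by simp) ?_
      (no_cliques G k _ θ (by push_cast; linarith) hθ h)
    push_cast
    nlinarith
  · refine key ((k + 1) * (2 * (⌊θ⌋₊ + 1))) _ (bicliques (k + 1) (⌊θ⌋₊ + 1)) (by simp) ?_
      (no_bicliques G k _ θ (by push_cast; linarith) hθ h)
    push_cast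
    nlinarith

end Pool.Agent.Helper26.SpectralVersion
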